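import Mathlib

/-!
# Growth of resolutions: definitions used in the statement (MP_5dc868_al)
-/

namespace Pool.Agent.Lib.P5dcG

/-- `P` is a resolution of `M` by finitely generated projective modules. -/
def Resolution (R M : Type) [Ring R] [AddCommGroup M] [Module R M] (P : ℕ → Type)
    [∀ n, AddCommGroup (P n)] [∀ n, Module R (P n)] (ε : P 0 →ₗ[R] M)
    (d : ∀ n, P (n + 1) →ₗ[R] P n) : Prop :=
  (∀ n, Module.Finite R (P n) ∧ Module.Projective R (P n)) ∧ Function.Surjective ε ∧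
    (∀ x : P 0, ε x = 0 ↔ ∃ y, d 0 y = x) ∧
    ∀ n (x : P (n + 1)), d n x = 0 ↔ ∃ y, d (n + 1) y = x

/-- `0 → X → J 0 → J 1 → ⋯` is exact. -/
def Coresolution (R X : Type) [Ring R] [AddCommGroup X] [Module R X] (J : ℕ → Type)
    [∀ n, AddCommGroup (J n)] [∀ n, Module R (J n)] (ε : X →ₗ[R] J 0)
    (d : ∀ n, J n →ₗ[R] J (n + 1)) : Prop :=
  Function.Injective ε ∧ (∀ x : J 0, d 0 x = 0 ↔ ∃ a, ε a = x) ∧
    ∀ n (x : J (n + 1)), d (n + 1) x = 0 ↔ ∃ y, d n y = x

/-- `J` is finitely generated, projective and injective. -/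
def ProjInj (R : Type) [Ring R] (J : Type) [AddCommGroup J] [Module R J] : Prop :=
  Module.Finite R J ∧ Module.Projective R J ∧ Module.Injective R J

/-- `X ⊕ Q ≅ X' ⊕ Q'` for some finitely generated projective modules `Q` and `Q'`. -/
def StabIso (R : Type) [Ring R] (X X' : Type) [AddCommGroup X] [Module R X] [AddCommGroup X']
    [Module R X'] : Prop :=
  ∃ (Q : Type) (_ : AddCommGroup Q) (_ : Module R Q) (Q' : Type) (_ : AddCommGroup Q')
    (_ : Module R Q'), (Module.Finite R Q ∧ Module.Projective R Q) ∧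
    (Module.Finite R Q' ∧ Module.Projective R Q') ∧ Nonempty ((X × Q) ≃ₗ[R] (X' × Q'))

/-- the bound -/
def bd (m D : ℕ) : ℕ := ((m + 1) * (D + 1)) ^ (3 * m * D ^ 2 + 1)

/-- For every `D`, at most `bd (dim A) D` of the modules `P n`, `n < N`, have dimension at most
`D`. -/
def Growth (K A : Type) [Field K] [Ring A] [Algebra K A] (P : ℕ → Type)
    [∀ n, AddCommGroup (P n)] [∀ n, Module K (P n)] (N : ℕ) : Prop :=
  ∀ (D : ℕ) (s : Finset ℕ), (∀ n ∈ s, n < N ∧ Module.finrank K (P n) ≤ D) →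
    s.card ≤ bd (Module.finrank K A) D

end Pool.Agent.Lib.P5dcG
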