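import Mathlib
import Pool.Agent.Lib.P5dcG.Stmt

/-!
# Growth of resolutions (MP_5dc868_al): auxiliary definitions
-/

namespace Pool.Agent.Lib.P5dcG

/-- `Ext^1_R(M, Y) = 0`, in terms of projective presentations of `M`. -/
def Ext1Zero (R : Type) [Ring R] (M Y : Type) [AddCommGroup M] [Module R M] [AddCommGroup Y]
    [Module R Y] : Prop :=
  ∀ (P : Type) [AddCommGroup P] [Module R P] [Module.Projective R P] (π : P →ₗ[R] M),
    Function.Surjective π → ∀ f : LinearMap.ker π →ₗ[R] Y,
      ∃ g : P →ₗ[R] Y, ∀ x : LinearMap.ker π, g x = f x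

section
variable {ι K : Type} [Field K]

/-- `f` is given by a polynomial of total degree at most `r`. -/
def PolyDeg (r : ℕ) (f : (ι → K) → K) : Prop :=
  ∃ p : MvPolynomial ι K, p.totalDegree ≤ r ∧ ∀ x, MvPolynomial.eval x p = f x

/-- `g` is a vector valued polynomial function of degree at most `r`. -/
def PolyVec {V : Type} [AddCommGroup V] [Module K V] (r : ℕ) (g : (ι → K) → V) : Prop :=
  ∃ (n : ℕ) (f : Fin n → (ι → K) → K) (u : Fin n → V), (∀ i, PolyDeg r (f i)) ∧
    ∀ y, g y = ∑ i, f i y • u i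

end

end Pool.Agent.Lib.P5dcG
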