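import Mathlib
import Pool.Agent.Lib.P5dcG.Defs

/-!
# Derivations into the endomorphisms of a rigid module are inner (MP_5dc868_al)
-/

namespace Pool.Agent.Lib.P5dcG

open TensorProduct

variable {K A M : Type} [Field K] [Ring A] [Algebra K A] [AddCommGroup M] [Module K M]
  [Module A M] [IsScalarTower K A M]

/-- the multiplication map `A ⊗ M → M` -/
noncomputable def mulMap : A ⊗[K] M →ₗ[A] M :=
  TensorProduct.AlgebraTensorModule.lift
    { toFun := fun a => a • (LinearMap.id : M →ₗ[K] M)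
      map_add' := fun a b => add_smul _ _ _
      map_smul' := fun a b => by simp [mul_smul] }

@[simp] theorem mulMap_tmul (a : A) (v : M) : mulMap (K := K) (a ⊗ₜ[K] v) = a • v := by
  simp [mulMap]

theorem mulMap_surjective : Function.Surjective (mulMap : A ⊗[K] M →ₗ[A] M) := fun v =>
  ⟨1 ⊗ₜ v, by simp⟩

instance : Module.Projective A (A ⊗[K] M) := inferInstance

theorem inner (h : Ext1Zero A M M) (δ : A →ₗ[K] M →ₗ[K] M)
    (hδ : ∀ a b v, δ (a * b) v = a • δ b v + δ a (b • v)) :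
    ∃ φ : M →ₗ[K] M, ∀ a v, δ a v = a • φ v - φ (a • v) := by
  have h1 : ∀ v, δ 1 v = 0 := fun v => by
    have := hδ 1 1 v
    simpa using this
  let D : A ⊗[K] M →ₗ[K] M := TensorProduct.lift δ
  have hD : ∀ (c : A) (z : A ⊗[K] M), D (c • z) = c • D z + δ c (mulMap z) := by
    intro c z
    induction z using TensorProduct.induction_on with
    | zero => simp
    | tmul a v => simpa [D, TensorProduct.smul_tmul'] using hδ c a v
    | add z w hz hw =>
      rw [smul_add, map_add, hz, hw, map_add, map_add, smul_add, map_add]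
      abel
  let f : LinearMap.ker (mulMap : A ⊗[K] M →ₗ[A] M) →ₗ[A] M :=
    { toFun := fun z => D z
      map_add' := fun z w => by simp
      map_smul' := fun c z => by
        have h2 : mulMap (z : A ⊗[K] M) = 0 := z.2
        simp [hD, h2] }
  obtain ⟨g, hg⟩ := h _ mulMap mulMap_surjective f
  let φ : M →ₗ[K] M :=
    { toFun := fun v => g (1 ⊗ₜ v)
      map_add' := fun v w => by rw [TensorProduct.tmul_add, map_add]
      map_smul' := fun c v => by
        rw [TensorProduct.tmul_smul, RingHom.id_apply]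
        have h3 : c • ((1 : A) ⊗ₜ[K] v) = (algebraMap K A c) • ((1 : A) ⊗ₜ[K] v) := by
          rw [algebraMap_smul]
        rw [h3, map_smul, algebraMap_smul] }
  refine ⟨φ, fun a v => ?_⟩
  have h2 : mulMap (a ⊗ₜ[K] v - 1 ⊗ₜ[K] (a • v)) = 0 := by simp
  have h3 := hg ⟨a ⊗ₜ[K] v - 1 ⊗ₜ[K] (a • v), h2⟩
  have h4 : g (a ⊗ₜ[K] v) = a • φ v := by
    have : a ⊗ₜ[K] v = a • ((1 : A) ⊗ₜ[K] v) := by simp [TensorProduct.smul_tmul']
    rw [this, map_smul]
    rfl
  have h5 : f ⟨a ⊗ₜ[K] v - 1 ⊗ₜ[K] (a • v), h2⟩ = δ a v := by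
    simp [f, D, h1]
  rw [h5] at h3
  rw [← h3]
  show g (a ⊗ₜ[K] v - 1 ⊗ₜ[K] (a • v)) = _
  rw [map_sub, h4]
  rfl

end Pool.Agent.Lib.P5dcG
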