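import Mathlib
import Pool.Agent.Lib.P5dcG.Defs

/-!
# Polynomial functions of bounded degree (MP_5dc868_al)
-/

namespace Pool.Agent.Lib.P5dcG

variable {ι K : Type} [Field K]

theorem PolyDeg.mono {r s : ℕ} {f : (ι → K) → K} (h : PolyDeg r f) (hrs : r ≤ s) :
    PolyDeg s f := by
  obtain ⟨p, hp, h⟩ := h
  exact ⟨p, hp.trans hrs, h⟩

theorem PolyDeg.const (r : ℕ) (c : K) : PolyDeg r (fun _ : ι → K => c) :=
  ⟨MvPolynomial.C c, by simp, fun x => by simp⟩

theorem PolyDeg.coord (i : ι) : PolyDeg 1 (fun y : ι → K => y i) :=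
  ⟨MvPolynomial.X i, by simp, fun x => by simp⟩

theorem PolyDeg.add {r : ℕ} {f g : (ι → K) → K} (hf : PolyDeg r f) (hg : PolyDeg r g) :
    PolyDeg r (fun y => f y + g y) := by
  obtain ⟨p, hp, hp'⟩ := hf
  obtain ⟨q, hq, hq'⟩ := hg
  exact ⟨p + q, (MvPolynomial.totalDegree_add p q).trans (max_le hp hq), fun x => by
    rw [map_add, hp', hq']⟩

theorem PolyDeg.mul {r s : ℕ} {f g : (ι → K) → K} (hf : PolyDeg r f) (hg : PolyDeg s g) :
    PolyDeg (r + s) (fun y => f y * g y) := by
  obtain ⟨p, hp, hp'⟩ := hf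
  obtain ⟨q, hq, hq'⟩ := hg
  exact ⟨p * q, (MvPolynomial.totalDegree_mul p q).trans (Nat.add_le_add hp hq), fun x => by
    rw [map_mul, hp', hq']⟩

theorem PolyDeg.neg {r : ℕ} {f : (ι → K) → K} (hf : PolyDeg r f) :
    PolyDeg r (fun y => -f y) := by
  obtain ⟨p, hp, hp'⟩ := hf
  exact ⟨-p, by rwa [MvPolynomial.totalDegree_neg], fun x => by rw [map_neg, hp']⟩

theorem PolyDeg.sub {r : ℕ} {f g : (ι → K) → K} (hf : PolyDeg r f) (hg : PolyDeg r g) :
    PolyDeg r (fun y => f y - g y) := by
  simpa [sub_eq_add_neg] using hf.add hg.neg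

theorem PolyDeg.sum {r : ℕ} {α : Type} (s : Finset α) {f : α → (ι → K) → K}
    (hf : ∀ a ∈ s, PolyDeg r (f a)) : PolyDeg r (fun y => ∑ a ∈ s, f a y) := by
  classical
  induction s using Finset.induction_on with
  | empty => simpa using PolyDeg.const r 0
  | insert a s ha ih =>
    have h1 := (hf a (Finset.mem_insert_self a s)).add
      (ih fun b hb => hf b (Finset.mem_insert_of_mem hb))
    simpa [Finset.sum_insert ha] using h1

theorem PolyDeg.prod {r : ℕ} {α : Type} (s : Finset α) {f : α → (ι → K) → K}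
    (hf : ∀ a ∈ s, PolyDeg r (f a)) : PolyDeg (s.card * r) (fun y => ∏ a ∈ s, f a y) := by
  classical
  induction s using Finset.induction_on with
  | empty => simpa using PolyDeg.const 0 1
  | insert a s ha ih =>
    have h1 := (hf a (Finset.mem_insert_self a s)).mul
      (ih fun b hb => hf b (Finset.mem_insert_of_mem hb))
    rw [Finset.card_insert_of_notMem ha]
    simpa [Finset.prod_insert ha, add_mul, add_comm] using h1

theorem PolyDeg.det {r n : ℕ} {M : (ι → K) → Matrix (Fin n) (Fin n) K}
    (hM : ∀ i j, PolyDeg r (fun y => M y i j)) : PolyDeg (n * r) (fun y => (M y).det) := by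
  have h : ∀ σ : Equiv.Perm (Fin n), PolyDeg (n * r) (fun y =>
      (((Equiv.Perm.sign σ : ℤˣ) : ℤ) : K) * ∏ i, M y (σ i) i) := by
    intro σ
    have h1 := PolyDeg.prod (Finset.univ : Finset (Fin n)) (f := fun i y => M y (σ i) i)
      (fun i _ => hM (σ i) i)
    have h2 := (PolyDeg.const (ι := ι) 0 (((Equiv.Perm.sign σ : ℤˣ) : ℤ) : K)).mul h1
    simpa using h2
  have h3 := PolyDeg.sum (Finset.univ : Finset (Equiv.Perm (Fin n))) (fun σ _ => h σ)
  simpa only [Matrix.det_apply'] using h3

theorem PolyDeg.adjugate {r n : ℕ} {M : (ι → K) → Matrix (Fin n) (Fin n) K}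
    (hM : ∀ i j, PolyDeg r (fun y => M y i j)) (i j : Fin n) :
    PolyDeg (n * r) (fun y => (M y).adjugate i j) := by
  simp only [Matrix.adjugate_apply]
  apply PolyDeg.det
  intro a b
  by_cases h : a = j
  · subst h
    simp only [Matrix.updateRow_self]
    exact PolyDeg.const r _
  · simp only [Matrix.updateRow_ne h]
    exact hM a b

section vec
variable {V W : Type} [AddCommGroup V] [Module K V] [AddCommGroup W] [Module K W]

theorem PolyVec.const (r : ℕ) (v : V) : PolyVec r (fun _ : ι → K => v) :=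
  ⟨1, fun _ _ => 1, fun _ => v, fun _ => PolyDeg.const r 1, fun y => by simp⟩

theorem PolyVec.smul {r s : ℕ} {f : (ι → K) → K} {g : (ι → K) → V} (hf : PolyDeg r f)
    (hg : PolyVec s g) : PolyVec (r + s) (fun y => f y • g y) := by
  obtain ⟨n, F, u, hF, h⟩ := hg
  refine ⟨n, fun i y => f y * F i y, u, fun i => hf.mul (hF i), fun y => ?_⟩
  show f y • g y = ∑ i, (f y * F i y) • u i
  rw [h, Finset.smul_sum]
  exact Finset.sum_congr rfl fun i _ => by rw [mul_smul]

theorem PolyVec.map {r : ℕ} {g : (ι → K) → V} (hg : PolyVec r g) (T : V →ₗ[K] W) :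
    PolyVec r (fun y => T (g y)) := by
  obtain ⟨n, F, u, hF, h⟩ := hg
  exact ⟨n, F, fun i => T (u i), hF, fun y => by simp [h y, map_sum]⟩

theorem PolyVec.fun {r : ℕ} {g : (ι → K) → V} (hg : PolyVec r g) (T : V →ₗ[K] K) :
    PolyDeg r (fun y => T (g y)) := by
  obtain ⟨n, F, u, hF, h⟩ := hg
  have h1 := PolyDeg.sum (Finset.univ : Finset (Fin n)) (f := fun i y => F i y * T (u i))
    (r := r) (fun i _ => by simpa using (hF i).mul (PolyDeg.const (ι := ι) 0 (T (u i))))
  simpa [h, map_sum] using h1

theorem PolyVec.add {r : ℕ} {g g' : (ι → K) → V} (hg : PolyVec r g) (hg' : PolyVec r g') :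
    PolyVec r (fun y => g y + g' y) := by
  obtain ⟨n, F, u, hF, h⟩ := hg
  obtain ⟨n', F', u', hF', h'⟩ := hg'
  refine ⟨n + n', Fin.append F F', Fin.append u u', fun i => ?_, fun y => ?_⟩
  · refine Fin.addCases (fun i => ?_) (fun i => ?_) i
    · simpa using hF i
    · simpa using hF' i
  · show g y + g' y = _
    rw [Fin.sum_univ_add, h, h']
    simp

theorem PolyVec.neg {r : ℕ} {g : (ι → K) → V} (hg : PolyVec r g) :
    PolyVec r (fun y => -g y) := by
  simpa using hg.map (-LinearMap.id)

theorem PolyVec.sub {r : ℕ} {g g' : (ι → K) → V} (hg : PolyVec r g) (hg' : PolyVec r g') :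
    PolyVec r (fun y => g y - g' y) := by
  simpa [sub_eq_add_neg] using hg.add hg'.neg

theorem PolyVec.sum {r : ℕ} {α : Type} (s : Finset α) {g : α → (ι → K) → V}
    (hg : ∀ a ∈ s, PolyVec r (g a)) : PolyVec r (fun y => ∑ a ∈ s, g a y) := by
  classical
  induction s using Finset.induction_on with
  | empty => simpa using PolyVec.const r 0
  | insert a s ha ih =>
    have h1 := (hg a (Finset.mem_insert_self a s)).add
      (ih fun b hb => hg b (Finset.mem_insert_of_mem hb))
    simpa [Finset.sum_insert ha] using h1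

theorem PolyVec.pi {r : ℕ} {α : Type} [Fintype α] {g : (ι → K) → α → V}
    (hg : ∀ a, PolyVec r (fun y => g y a)) : PolyVec r g := by
  classical
  have h : g = fun y => ∑ a : α, (LinearMap.single K (fun _ : α => V) a) (g y a) := by
    funext y
    ext a
    simp
  rw [h]
  exact PolyVec.sum _ fun a _ => (hg a).map _

end vec

/-- There are at most `(r + 1) ^ N` points in `K ^ N` which can be separated by polynomials of
degree at most `r`. -/
theorem count [Fintype ι] {r n : ℕ} (x : Fin n → ι → K) (f : Fin n → (ι → K) → K)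
    (hf : ∀ k, PolyDeg r (f k)) (h1 : ∀ k, f k (x k) ≠ 0) (h0 : ∀ k j, k ≠ j → f k (x j) = 0) :
    n ≤ (r + 1) ^ Fintype.card ι := by
  classical
  choose p hp hp' using hf
  -- the exponents
  let S : Finset (ι →₀ ℕ) := Finset.univ.image fun e : ι → Fin (r + 1) =>
    Finsupp.equivFunOnFinite.symm fun i => (e i : ℕ)
  have hS : S.card ≤ (r + 1) ^ Fintype.card ι := by
    refine Finset.card_image_le.trans ?_
    simp
  have hsup : ∀ k, (p k).support ⊆ S := by
    intro k s hs
    refine Finset.mem_image.2 ⟨fun i => ⟨s i, ?_⟩, Finset.mem_univ _, ?_⟩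
    · have h2 := MvPolynomial.le_totalDegree hs
      have h3 : s i ≤ s.sum fun _ e => e := by
        by_cases hi : i ∈ s.support
        · exact Finset.single_le_sum (f := fun i => s i) (fun _ _ => Nat.zero_le _) hi
        · simp [Finsupp.notMem_support_iff.1 hi]
      have := hp k
      omega
    · ext i
      simp
  -- coefficients
  let T : (Fin n → K) →ₗ[K] (S → K) := 
    { toFun := fun c s => ∑ k, c k * (p k).coeff s
      map_add' := fun c c' => by
        ext s
        simp [add_mul, Finset.sum_add_distrib]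
      map_smul' := fun a c => by
        ext s
        simp [mul_assoc, Finset.mul_sum] }
  have hT : Function.Injective T := by
    rw [← LinearMap.ker_eq_bot, LinearMap.ker_eq_bot']
    intro c hc
    have h2 : ∑ k, MvPolynomial.C (c k) * p k = 0 := by
      ext s
      rw [MvPolynomial.coeff_sum, MvPolynomial.coeff_zero]
      by_cases hs : s ∈ S
      · have h3 := congrFun hc ⟨s, hs⟩
        simpa [T, MvPolynomial.coeff_C_mul] using h3
      · refine Finset.sum_eq_zero fun k _ => ?_
        rw [MvPolynomial.coeff_C_mul, MvPolynomial.notMem_support_iff.1 fun h => hs (hsup k h),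
          mul_zero]
    ext j
    have h3 := congrArg (MvPolynomial.eval (x j)) h2
    rw [map_sum, map_zero, Finset.sum_eq_single j] at h3
    · rw [map_mul, MvPolynomial.eval_C, hp'] at h3
      exact (mul_eq_zero.1 h3).resolve_right (h1 j)
    · intro k _ hk
      rw [map_mul, MvPolynomial.eval_C, hp', h0 k j hk, mul_zero]
    · intro h
      exact absurd (Finset.mem_univ j) h
  have h4 := LinearMap.finrank_le_finrank_of_injective hT
  simp only [Module.finrank_fintype_fun_eq_card, Fintype.card_fin, Fintype.card_coe] at h4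
  exact h4.trans hS

end Pool.Agent.Lib.P5dcG
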