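import Mathlib
import Pool.Agent.Lib.P5dcG.PolyG

/-!
# Exact pairs of linear maps which depend on parameters (MP_5dc868_al)
-/

namespace Pool.Agent.Lib.P5dcG

open Module

variable {ι K : Type} [Field K]

/-- a nonzero minor of maximal size -/
theorem exists_minor {V V' : Type} [AddCommGroup V] [Module K V] [AddCommGroup V'] [Module K V']
    [FiniteDimensional K V] (T : V →ₗ[K] V') :
    ∃ (w : Fin (finrank K (LinearMap.range T)) → V)
      (U : V' →ₗ[K] (Fin (finrank K (LinearMap.range T)) → K)),
      ∀ j, U (T (w j)) = Pi.single j 1 := by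
  classical
  let b := finBasis K (LinearMap.range T)
  have hw : ∀ j, ∃ w, T w = b j := fun j => (b j).2
  choose w hw using hw
  let J : (Fin (finrank K (LinearMap.range T)) → K) →ₗ[K] V' :=
    (LinearMap.range T).subtype ∘ₗ (b.equivFun.symm : _ →ₗ[K] _)
  have hJ : LinearMap.ker J = ⊥ := by
    rw [LinearMap.ker_eq_bot]
    exact Subtype.val_injective.comp b.equivFun.symm.injective
  obtain ⟨U, hU⟩ := LinearMap.exists_leftInverse_of_injective J hJ
  refine ⟨w, U, fun j => ?_⟩
  have h1 : J (Pi.single j 1) = T (w j) := by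
    rw [hw]
    simp [J, Basis.equivFun_symm_apply, Pi.single_apply, ite_smul]
  rw [← h1]
  exact LinearMap.congr_fun hU _

variable {V V' V'' : Type} [AddCommGroup V] [Module K V] [AddCommGroup V'] [Module K V']
  [AddCommGroup V''] [Module K V''] [FiniteDimensional K V] [FiniteDimensional K V']

/-- the matrix of the minor -/
def mat {r : ℕ} (w : Fin r → V) (U : V' →ₗ[K] (Fin r → K)) (T : V →ₗ[K] V') :
    Matrix (Fin r) (Fin r) K := Matrix.of fun i j => U (T (w j)) i

omit [FiniteDimensional K V] [FiniteDimensional K V'] in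
theorem mat_mulVec {r : ℕ} (w : Fin r → V) (U : V' →ₗ[K] (Fin r → K)) (T : V →ₗ[K] V')
    (c : Fin r → K) : (mat w U T).mulVec c = U (T (∑ j, c j • w j)) := by
  ext i
  simp [mat, Matrix.mulVec, dotProduct, map_sum, mul_comm]

omit [FiniteDimensional K V] [FiniteDimensional K V'] in
theorem injective_of_det {r : ℕ} {w : Fin r → V} {U : V' →ₗ[K] (Fin r → K)} {T : V →ₗ[K] V'}
    (h : (mat w U T).det ≠ 0) :
    Function.Injective fun c : Fin r → K => T (∑ j, c j • w j) := by
  intro c c' hc
  have h1 : (mat w U T).mulVec c = (mat w U T).mulVec c' := by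
    rw [mat_mulVec, mat_mulVec]
    exact congrArg U hc
  have h2 := congrArg (mat w U T).adjugate.mulVec h1
  simp only [Matrix.mulVec_mulVec, Matrix.adjugate_mul, Matrix.smul_mulVec,
    Matrix.one_mulVec] at h2
  exact smul_right_injective _ h h2

theorem generic (L : (ι → K) → V →ₗ[K] V') (L' : (ι → K) → V' →ₗ[K] V'')
    (hL : ∀ v, PolyVec 1 fun y => L y v) (hL' : ∀ u, PolyVec 1 fun y => L' y u)
    (x : ι → K) (hex : ∀ u, L' x u = 0 → ∃ v, L x v = u) (v0 : V) (hv0 : L x v0 = 0) :
    ∃ (f : (ι → K) → K) (v : (ι → K) → V),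
      PolyDeg (finrank K V + finrank K V') f ∧ PolyVec (finrank K V + 1) v ∧ f x ≠ 0 ∧
      v x = v0 ∧ ∀ y, (∀ v, L' y (L y v) = 0) → f y ≠ 0 → L y (v y) = 0 := by
  classical
  obtain ⟨w, U, hU⟩ := exists_minor (L x)
  obtain ⟨w', U', hU'⟩ := exists_minor (L' x)
  have hr : finrank K (LinearMap.range (L x)) ≤ finrank K V := LinearMap.finrank_range_le _
  have hr' : finrank K (LinearMap.range (L' x)) ≤ finrank K V' := LinearMap.finrank_range_le _
  have hB : ∀ i j, PolyDeg 1 fun y => mat w U (L y) i j := fun i j =>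
    (hL (w j)).fun (LinearMap.proj i ∘ₗ U)
  have hB' : ∀ i j, PolyDeg 1 fun y => mat w' U' (L' y) i j := fun i j =>
    (hL' (w' j)).fun (LinearMap.proj i ∘ₗ U')
  have hBx : mat w U (L x) = 1 := by
    ext i j
    simp [mat, hU, Pi.single_apply, Matrix.one_apply]
  have hBx' : mat w' U' (L' x) = 1 := by
    ext i j
    simp [mat, hU', Pi.single_apply, Matrix.one_apply]
  refine ⟨fun y => (mat w U (L y)).det * (mat w' U' (L' y)).det,
    fun y => (mat w U (L y)).det • v0 -
      ∑ j, ((mat w U (L y)).adjugate.mulVec (U (L y v0))) j • w j, ?_, ?_, ?_, ?_, ?_⟩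
  · exact ((PolyDeg.det hB).mono (by simpa using hr)).mul ((PolyDeg.det hB').mono (by simpa using hr'))
  · refine PolyVec.sub ?_ (PolyVec.sum _ fun j _ => ?_)
    · have h1 := (PolyDeg.det hB).mono (s := finrank K V + 1) (by omega)
      have h2 := PolyVec.smul h1 (PolyVec.const 0 v0)
      exact h2
    · have h1 : PolyDeg (finrank K V + 1)
          fun y => ((mat w U (L y)).adjugate.mulVec (U (L y v0))) j := by
        simp only [Matrix.mulVec, dotProduct]
        refine PolyDeg.sum _ fun i _ => ?_
        have h2 := (PolyDeg.adjugate hB j i).mono (s := finrank K V) (by simpa using hr)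
        exact h2.mul ((hL v0).fun (LinearMap.proj i ∘ₗ U))
      have h2 := PolyVec.smul h1 (PolyVec.const 0 (w j))
      exact h2
  · simp [hBx, hBx']
  · simp [hBx, hv0]
  · intro y hy hf
    have hd : (mat w U (L y)).det ≠ 0 := left_ne_zero_of_mul hf
    have hd' : (mat w' U' (L' y)).det ≠ 0 := right_ne_zero_of_mul hf
    let W : (Fin (finrank K (LinearMap.range (L x))) → K) →ₗ[K] V' :=
      L y ∘ₗ Fintype.linearCombination K w
    let W' : (Fin (finrank K (LinearMap.range (L' x))) → K) →ₗ[K] V'' :=
      L' y ∘ₗ Fintype.linearCombination K w'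
    have hW : Function.Injective W := injective_of_det hd
    have hW' : Function.Injective W' := injective_of_det hd'
    have h1 : finrank K (LinearMap.range W) = finrank K (LinearMap.range (L x)) := by
      rw [LinearMap.finrank_range_of_inj hW]
      simp
    have h2 : finrank K (LinearMap.range (L' x)) ≤ finrank K (LinearMap.range (L' y)) := by
      have h3 : finrank K (LinearMap.range W') = finrank K (LinearMap.range (L' x)) := by
        rw [LinearMap.finrank_range_of_inj hW']
        simp
      rw [← h3]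
      have : FiniteDimensional K (LinearMap.range (L' y)) := inferInstance
      exact Submodule.finrank_mono (LinearMap.range_comp_le_range _ _)
    have h4 := LinearMap.finrank_range_add_finrank_ker (L' x)
    have h5 := LinearMap.finrank_range_add_finrank_ker (L' y)
    have h6 : finrank K (LinearMap.ker (L' x)) ≤ finrank K (LinearMap.range (L x)) :=
      Submodule.finrank_mono fun u hu => hex u hu
    have h7 : LinearMap.range W = LinearMap.ker (L' y) := by
      refine Submodule.eq_of_le_of_finrank_le ?_ (by omega)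
      rintro _ ⟨c, rfl⟩
      exact hy _
    have h8 : L y v0 ∈ LinearMap.range W := by
      rw [h7]
      exact hy v0
    obtain ⟨c, hc⟩ := h8
    have hc' : L y v0 = L y (∑ j, c j • w j) := hc.symm
    have h9 : (mat w U (L y)).adjugate.mulVec (U (L y v0)) = (mat w U (L y)).det • c := by
      rw [hc', ← mat_mulVec, Matrix.mulVec_mulVec, Matrix.adjugate_mul, Matrix.smul_mulVec,
        Matrix.one_mulVec]
    show L y ((mat w U (L y)).det • v0 -
      ∑ j, ((mat w U (L y)).adjugate.mulVec (U (L y v0))) j • w j) = 0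
    rw [h9, map_sub, map_smul, hc', ← map_smul, ← map_sub, Finset.smul_sum]
    simp [mul_smul]

end Pool.Agent.Lib.P5dcG
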