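import Mathlib
import Pool.Agent.Lib.P5dcG.GenG
import Pool.Agent.Lib.P5dcG.DerG

/-!
# The orbit of a rigid module is open, effective version (MP_5dc868_al)
-/

namespace Pool.Agent.Lib.P5dcG

open Module

variable {K A : Type} [Field K] [Ring A] [Algebra K A] {m d : ℕ}

section defs
variable {M : Type} [AddCommGroup M] [Module K M] [Module A M] [IsScalarTower K A M]

/-- the matrix of `c` on `M` -/
noncomputable def rho (b : Basis (Fin d) K M) (c : A) : Matrix (Fin d) (Fin d) K :=
  LinearMap.toMatrix b b (Algebra.lsmul K K M c)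

theorem rho_mul (b : Basis (Fin d) K M) (c c' : A) : rho b (c * c') = rho b c * rho b c' := by
  rw [rho, map_mul, Module.End.mul_eq_comp, LinearMap.toMatrix_comp b b b]
  rfl

theorem rho_sum (b : Basis (Fin d) K M) (a : Basis (Fin m) K A) (c : A) :
    rho b c = ∑ r, a.repr c r • rho b (a r) := by
  have h := congrArg (fun e => LinearMap.toMatrix b b (Algebra.lsmul K K M e)) (a.sum_repr c)
  simp only [map_sum, map_smul] at h
  exact h.symm

/-- the point of the representation space -/
noncomputable def pt (a : Basis (Fin m) K A) (b : Basis (Fin d) K M) :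
    Fin m × Fin d × Fin d → K := fun z => rho b (a z.1) z.2.1 z.2.2

end defs

/-- the matrices of a point -/
def mt (y : Fin m × Fin d × Fin d → K) (l : Fin m) : Matrix (Fin d) (Fin d) K :=
  Matrix.of fun i j => y (l, i, j)

theorem mt_polyVec (l : Fin m) :
    PolyVec 1 fun y : Fin m × Fin d × Fin d → K => mt y l := by
  have h : (fun y : Fin m × Fin d × Fin d → K => mt y l) =
      fun y => ∑ i, ∑ j, y (l, i, j) • (Matrix.single i j 1 : Matrix (Fin d) (Fin d) K) := by
    funext y
    conv_lhs => rw [Matrix.matrix_eq_sum_single (mt y l)]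
    simp [mt, Matrix.smul_single]
  rw [h]
  refine PolyVec.sum _ fun i _ => PolyVec.sum _ fun j _ => ?_
  have h2 := PolyVec.smul (PolyDeg.coord (K := K) (l, i, j))
    (PolyVec.const 0 (Matrix.single i j 1 : Matrix (Fin d) (Fin d) K))
  exact h2

/-- first map -/
def L1 (X : Fin m → Matrix (Fin d) (Fin d) K) (y : Fin m × Fin d × Fin d → K) :
    Matrix (Fin d) (Fin d) K →ₗ[K] (Fin m → Matrix (Fin d) (Fin d) K) where
  toFun φ l := mt y l * φ - φ * X l
  map_add' φ ψ := by
    funext l
    simp only [mul_add, add_mul, Pi.add_apply]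
    abel
  map_smul' c φ := by
    funext l
    simp [smul_sub]

/-- second map -/
def L2 (c : Fin m → Fin m → Fin m → K) (X : Fin m → Matrix (Fin d) (Fin d) K)
    (y : Fin m × Fin d × Fin d → K) :
    (Fin m → Matrix (Fin d) (Fin d) K) →ₗ[K] (Fin m → Fin m → Matrix (Fin d) (Fin d) K) where
  toFun δ k l := mt y k * δ l + δ k * X l - ∑ r, c k l r • δ r
  map_add' φ ψ := by
    funext k l
    simp only [mul_add, add_mul, Pi.add_apply, smul_add, Finset.sum_add_distrib]
    abel
  map_smul' e φ := by
    funext k l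
    simp only [Pi.smul_apply, Matrix.mul_smul, Matrix.smul_mul, RingHom.id_apply, smul_sub,
      smul_add, Finset.smul_sum]
    simp only [smul_comm e]

theorem L1_polyVec (X : Fin m → Matrix (Fin d) (Fin d) K) (φ : Matrix (Fin d) (Fin d) K) :
    PolyVec 1 fun y => L1 X y φ := by
  refine PolyVec.pi fun l => ?_
  exact ((mt_polyVec l).map (LinearMap.mulRight K φ)).sub (PolyVec.const 1 (φ * X l))

theorem L2_polyVec (c : Fin m → Fin m → Fin m → K) (X : Fin m → Matrix (Fin d) (Fin d) K)
    (δ : Fin m → Matrix (Fin d) (Fin d) K) : PolyVec 1 fun y => L2 c X y δ := by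
  refine PolyVec.pi fun k => PolyVec.pi fun l => ?_
  exact (((mt_polyVec k).map (LinearMap.mulRight K (δ l))).add (PolyVec.const 1 (δ k * X l))).sub
    (PolyVec.const 1 (∑ r, c k l r • δ r))

section
variable {M : Type} [AddCommGroup M] [Module K M] [Module A M] [IsScalarTower K A M]

theorem mt_pt (a : Basis (Fin m) K A) (b : Basis (Fin d) K M) (l : Fin m) :
    mt (pt a b) l = rho b (a l) := by
  ext i j
  rfl

/-- exactness at a rigid module -/
theorem exact_of_rigid (a : Basis (Fin m) K A) (b : Basis (Fin d) K M) (h : Ext1Zero A M M)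
    (δ : Fin m → Matrix (Fin d) (Fin d) K)
    (hδ : L2 (fun k l r => a.repr (a k * a l) r) (fun l => rho b (a l)) (pt a b) δ = 0) :
    ∃ φ, L1 (fun l => rho b (a l)) (pt a b) φ = δ := by
  let D : A →ₗ[K] M →ₗ[K] M := a.constr K fun l => Matrix.toLin b b (δ l)
  have hDl : ∀ l, D (a l) = Matrix.toLin b b (δ l) := fun l => a.constr_basis K _ l
  have hlin : ∀ c : A, Matrix.toLin b b (rho b c) = Algebra.lsmul K K M c := fun c => by
    rw [rho, Matrix.toLin_toMatrix]
  have hkl : ∀ k l, D (a k * a l) = Algebra.lsmul K K M (a k) ∘ₗ D (a l) +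
      D (a k) ∘ₗ Algebra.lsmul K K M (a l) := by
    intro k l
    have h1 := congrFun (congrFun hδ k) l
    have h2 : rho b (a k) * δ l + δ k * rho b (a l) = ∑ r, a.repr (a k * a l) r • δ r := by
      have h3 : mt (pt a b) k * δ l + δ k * rho b (a l) -
        ∑ r, a.repr (a k * a l) r • δ r = 0 := h1
      rw [mt_pt] at h3
      exact sub_eq_zero.1 h3
    have h3 : D (a k * a l) = ∑ r, a.repr (a k * a l) r • D (a r) := by
      have h := congrArg D (a.sum_repr (a k * a l))
      simp only [map_sum, map_smul] at h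
      exact h.symm
    rw [h3, hDl k, hDl l, ← hlin, ← hlin, ← Matrix.toLin_mul b b b, ← Matrix.toLin_mul b b b,
      ← map_add, h2, map_sum]
    simp [hDl]
  have hD : ∀ c c' v, D (c * c') v = c • D c' v + D c (c' • v) := by
    intro c c' v
    have h4 : (LinearMap.mul K A).compr₂ (D.flip v) =
        ((Algebra.lsmul K K M).toLinearMap.flip.comp (D.flip v)).flip +
        (D.flip.comp ((Algebra.lsmul K K M).toLinearMap.flip v)).flip := by
      refine a.ext fun k => a.ext fun l => ?_
      have h5 := LinearMap.congr_fun (hkl k l) v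
      simpa using h5
    have h6 := LinearMap.congr_fun (LinearMap.congr_fun h4 c) c'
    simpa using h6
  obtain ⟨φ, hφ⟩ := inner h D hD
  refine ⟨LinearMap.toMatrix b b φ, ?_⟩
  funext l
  show mt (pt a b) l * LinearMap.toMatrix b b φ - LinearMap.toMatrix b b φ * rho b (a l) = δ l
  rw [mt_pt, rho, ← LinearMap.toMatrix_comp b b b, ← LinearMap.toMatrix_comp b b b, ← map_sub]
  have h7 : Algebra.lsmul K K M (a l) ∘ₗ φ - φ ∘ₗ Algebra.lsmul K K M (a l) = D (a l) := by
    ext v
    exact (hφ (a l) v).symm
  rw [h7, hDl, LinearMap.toMatrix_toLin]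

/-- the composition is zero at a representation -/
theorem comp_zero {N : Type} [AddCommGroup N] [Module K N] [Module A N] [IsScalarTower K A N]
    (a : Basis (Fin m) K A) (b : Basis (Fin d) K M) (b' : Basis (Fin d) K N)
    (φ : Matrix (Fin d) (Fin d) K) :
    L2 (fun k l r => a.repr (a k * a l) r) (fun l => rho b (a l)) (pt a b')
      (L1 (fun l => rho b (a l)) (pt a b') φ) = 0 := by
  funext k l
  show mt (pt a b') k * (mt (pt a b') l * φ - φ * rho b (a l)) +
    (mt (pt a b') k * φ - φ * rho b (a k)) * rho b (a l) -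
    ∑ r, a.repr (a k * a l) r • (mt (pt a b') r * φ - φ * rho b (a r)) = 0
  simp only [mt_pt]
  have h1 : ∑ r, a.repr (a k * a l) r • (rho b' (a r) * φ - φ * rho b (a r)) =
      rho b' (a k * a l) * φ - φ * rho b (a k * a l) := by
    rw [rho_sum b' a (a k * a l), rho_sum b a (a k * a l), Finset.sum_mul, Finset.mul_sum,
      ← Finset.sum_sub_distrib]
    exact Finset.sum_congr rfl fun r _ => by rw [smul_sub, Matrix.smul_mul, Matrix.mul_smul]
  rw [h1, rho_mul, rho_mul]
  noncomm_ring

/-- an invertible intertwiner gives an isomorphism -/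
theorem iso_of_matrix {N : Type} [AddCommGroup N] [Module K N] [Module A N] [IsScalarTower K A N]
    (a : Basis (Fin m) K A) (b : Basis (Fin d) K M) (b' : Basis (Fin d) K N)
    (φ : Matrix (Fin d) (Fin d) K) (hφ : φ.det ≠ 0)
    (h : L1 (fun l => rho b (a l)) (pt a b') φ = 0) : Nonempty (M ≃ₗ[A] N) := by
  let T : M →ₗ[K] N := Matrix.toLin b b' φ
  let S : N →ₗ[K] M := Matrix.toLin b' b φ⁻¹
  have hu : IsUnit φ.det := isUnit_iff_ne_zero.2 hφ
  have hST : ∀ v, S (T v) = v := fun v => by
    have : S ∘ₗ T = LinearMap.id := by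
      rw [← Matrix.toLin_mul b b' b, Matrix.nonsing_inv_mul _ hu, Matrix.toLin_one]
    exact LinearMap.congr_fun this v
  have hTS : ∀ v, T (S v) = v := fun v => by
    have : T ∘ₗ S = LinearMap.id := by
      rw [← Matrix.toLin_mul b' b b', Matrix.mul_nonsing_inv _ hu, Matrix.toLin_one]
    exact LinearMap.congr_fun this v
  have hl : ∀ l, rho b' (a l) * φ = φ * rho b (a l) := fun l => by
    have h1 := congrFun h l
    have h2 : mt (pt a b') l * φ - φ * rho b (a l) = 0 := h1
    rw [mt_pt] at h2
    exact sub_eq_zero.1 h2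
  have hall : ∀ c : A, rho b' c * φ = φ * rho b c := fun c => by
    rw [rho_sum b' a c, rho_sum b a c, Finset.sum_mul, Finset.mul_sum]
    exact Finset.sum_congr rfl fun r _ => by rw [Matrix.smul_mul, Matrix.mul_smul, hl]
  have hT : ∀ (c : A) v, T (c • v) = c • T v := fun c v => by
    have h1 : Matrix.toLin b b' (rho b' c * φ) = Algebra.lsmul K K N c ∘ₗ T := by
      rw [Matrix.toLin_mul b b' b', rho, Matrix.toLin_toMatrix]
    have h2 : Matrix.toLin b b' (φ * rho b c) = T ∘ₗ Algebra.lsmul K K M c := by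
      rw [Matrix.toLin_mul b b b', rho, Matrix.toLin_toMatrix]
    rw [hall, h2] at h1
    exact LinearMap.congr_fun h1 v
  exact ⟨{ toFun := T
           map_add' := map_add T
           map_smul' := hT
           invFun := S
           left_inv := hST
           right_inv := hTS }⟩

theorem openness [FiniteDimensional K A] (a : Basis (Fin m) K A) (b : Basis (Fin d) K M)
    (h : Ext1Zero A M M) :
    ∃ F : (Fin m × Fin d × Fin d → K) → K,
      PolyDeg (d * d + m * (d * d) + d * (d * d + 1)) F ∧ F (pt a b) ≠ 0 ∧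
      ∀ (N : Type) [AddCommGroup N] [Module K N] [Module A N] [IsScalarTower K A N]
        (b' : Basis (Fin d) K N), F (pt a b') ≠ 0 → Nonempty (M ≃ₗ[A] N) := by
  obtain ⟨f, v, hf, hv, hfx, hvx, H⟩ := generic
    (L1 (fun l => rho b (a l))) (L2 (fun k l r => a.repr (a k * a l) r) (fun l => rho b (a l)))
    (L1_polyVec _) (L2_polyVec _ _) (pt a b) (exact_of_rigid a b h) 1 (by
      funext l
      show mt (pt a b) l * 1 - 1 * rho b (a l) = 0
      rw [mt_pt, mul_one, one_mul, sub_self])
  have h1 : finrank K (Matrix (Fin d) (Fin d) K) = d * d := by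
    simp [Module.finrank_matrix]
  have h2 : finrank K (Fin m → Matrix (Fin d) (Fin d) K) = m * (d * d) := by
    simp [Module.finrank_pi_fintype, h1]
  rw [h1] at hv
  rw [h1, h2] at hf
  refine ⟨fun y => f y * (v y).det, ?_, ?_, ?_⟩
  · exact hf.mul (PolyDeg.det fun i j => hv.fun (Matrix.entryLinearMap K K i j))
  · show f (pt a b) * (v (pt a b)).det ≠ 0
    rw [hvx, Matrix.det_one, mul_one]
    exact hfx
  · intro N _ _ _ _ b' hF
    exact iso_of_matrix a b b' (v (pt a b')) (right_ne_zero_of_mul hF)
      (H (pt a b') (comp_zero a b b') (left_ne_zero_of_mul hF))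

end

end Pool.Agent.Lib.P5dcG
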