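import Mathlib
import Pool.Agent.Lib.P5dcG.OpenG

/-!
# The number of rigid modules of bounded dimension (MP_5dc868_al)
-/

namespace Pool.Agent.Lib.P5dcG

open Module

variable {K A : Type} [Field K] [Ring A] [Algebra K A] [FiniteDimensional K A]

/-- an upper bound for the number of rigid modules of dimension `d` -/
def rb (m d : ℕ) : ℕ := (d * d + m * (d * d) + d * (d * d + 1) + 1) ^ (m * (d * d))

theorem rb_mono (m : ℕ) {d D : ℕ} (h : d ≤ D) : rb m d ≤ rb m D := by
  unfold rb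
  have h1 : d * d ≤ D * D := Nat.mul_le_mul h h
  have h2 : m * (d * d) ≤ m * (D * D) := Nat.mul_le_mul_left m h1
  have h3 : d * (d * d + 1) ≤ D * (D * D + 1) := Nat.mul_le_mul h (by omega)
  calc (d * d + m * (d * d) + d * (d * d + 1) + 1) ^ (m * (d * d))
      ≤ (D * D + m * (D * D) + D * (D * D + 1) + 1) ^ (m * (d * d)) :=
        Nat.pow_le_pow_left (by omega) _
    _ ≤ (D * D + m * (D * D) + D * (D * D + 1) + 1) ^ (m * (D * D)) :=
        Nat.pow_le_pow_right (by omega) h2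

theorem rb_le (m D : ℕ) : (D + 1) * rb m D ≤ bd m D := by
  unfold rb bd
  have h1 : D * D + m * (D * D) + D * (D * D + 1) + 1 ≤ ((m + 1) * (D + 1)) ^ 3 := by
    calc D * D + m * (D * D) + D * (D * D + 1) + 1 ≤ (m + 1) * (D + 1) ^ 3 := by
          have : 0 ≤ m * D := Nat.zero_le _
          nlinarith [Nat.zero_le (m * D ^ 3), Nat.zero_le (m * D ^ 2), Nat.zero_le (m * D),
            Nat.zero_le (D ^ 2), Nat.zero_le D, Nat.zero_le m]
      _ ≤ (m + 1) ^ 3 * (D + 1) ^ 3 :=
          Nat.mul_le_mul_right _ (Nat.le_self_pow (by norm_num) _)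
      _ = _ := (mul_pow _ _ _).symm
  have h2 : D + 1 ≤ (m + 1) * (D + 1) := Nat.le_mul_of_pos_left _ (by omega)
  calc (D + 1) * (D * D + m * (D * D) + D * (D * D + 1) + 1) ^ (m * (D * D))
      ≤ ((m + 1) * (D + 1)) * (((m + 1) * (D + 1)) ^ 3) ^ (m * (D * D)) :=
        Nat.mul_le_mul h2 (Nat.pow_le_pow_left h1 _)
    _ = ((m + 1) * (D + 1)) ^ (3 * m * D ^ 2 + 1) := by
        rw [← pow_mul, ← pow_succ']
        congr 1
        ring

theorem count_rigid (M : ℕ → Type) [∀ k, AddCommGroup (M k)] [∀ k, Module K (M k)]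
    [∀ k, Module A (M k)] [∀ k, IsScalarTower K A (M k)] (s : Finset ℕ) (d : ℕ)
    (hf : ∀ k ∈ s, FiniteDimensional K (M k)) (hd : ∀ k ∈ s, finrank K (M k) = d)
    (hr : ∀ k ∈ s, Ext1Zero A (M k) (M k))
    (hiso : ∀ k ∈ s, ∀ j ∈ s, k < j → ¬ Nonempty (M k ≃ₗ[A] M j)) :
    s.card ≤ rb (finrank K A) d := by
  classical
  let a := finBasis K A
  have hb : ∀ k : s, Nonempty (Basis (Fin d) K (M k)) := fun k => by
    have := hf k k.2
    exact ⟨finBasisOfFinrankEq K (M k) (hd k k.2)⟩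
  let b : ∀ k : s, Basis (Fin d) K (M k) := fun k => (hb k).some
  have H : ∀ k : s, ∃ F : (Fin (finrank K A) × Fin d × Fin d → K) → K,
      PolyDeg (d * d + finrank K A * (d * d) + d * (d * d + 1)) F ∧ F (pt a (b k)) ≠ 0 ∧
      ∀ (N : Type) [AddCommGroup N] [Module K N] [Module A N] [IsScalarTower K A N]
        (b' : Basis (Fin d) K N), F (pt a b') ≠ 0 → Nonempty (M k ≃ₗ[A] N) :=
    fun k => openness a (b k) (hr k k.2)
  choose F hF1 hF2 hF3 using H
  let e := s.equivFin.symm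
  have h1 := count (fun i => pt a (b (e i))) (fun i => F (e i)) (fun i => hF1 _)
    (fun i => hF2 _) (fun i j hij => by
      by_contra h
      have h2 := hF3 (e i) _ (b (e j)) h
      have hne : (e i : ℕ) ≠ e j := fun h3 => hij (e.injective (Subtype.ext h3))
      rcases lt_or_gt_of_ne hne with h3 | h3
      · exact hiso _ (e i).2 _ (e j).2 h3 h2
      · exact hiso _ (e j).2 _ (e i).2 h3 ⟨h2.some.symm⟩)
  simpa [rb] using h1

theorem card_le (M : ℕ → Type) [∀ k, AddCommGroup (M k)] [∀ k, Module K (M k)]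
    [∀ k, Module A (M k)] [∀ k, IsScalarTower K A (M k)] (s : Finset ℕ) (D : ℕ)
    (hf : ∀ k ∈ s, FiniteDimensional K (M k)) (hd : ∀ k ∈ s, finrank K (M k) ≤ D)
    (hr : ∀ k ∈ s, Ext1Zero A (M k) (M k))
    (hiso : ∀ k ∈ s, ∀ j ∈ s, k < j → ¬ Nonempty (M k ≃ₗ[A] M j)) :
    s.card ≤ bd (finrank K A) D := by
  classical
  refine le_trans ?_ (rb_le (finrank K A) D)
  have h1 : s.card = ∑ d ∈ Finset.range (D + 1), (s.filter fun k => finrank K (M k) = d).card :=
    Finset.card_eq_sum_card_fiberwise fun k hk => by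
      simpa [Nat.lt_succ_iff] using hd k hk
  rw [h1]
  calc _ ≤ ∑ d ∈ Finset.range (D + 1), rb (finrank K A) D := by
        refine Finset.sum_le_sum fun d hd' => ?_
        refine le_trans ?_ (rb_mono (finrank K A) (d := d) (by simpa [Nat.lt_succ_iff] using hd'))
        refine count_rigid (A := A) M _ d ?_ ?_ ?_ ?_
        · exact fun k hk => hf k (Finset.mem_filter.1 hk).1
        · exact fun k hk => (Finset.mem_filter.1 hk).2
        · exact fun k hk => hr k (Finset.mem_filter.1 hk).1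
        · exact fun k hk j hj => hiso k (Finset.mem_filter.1 hk).1 j (Finset.mem_filter.1 hj).1
    _ = (D + 1) * rb (finrank K A) D := by simp

end Pool.Agent.Lib.P5dcG
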