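import Mathlib
import Pool.Agent.Lib.P5dcG.Defs

/-!
# Rigidity of syzygies and descent (MP_5dc868_al)
-/

namespace Pool.Agent.Lib.P5dcG

variable {R : Type} [Ring R]

section basic
variable {P Y X Z : Type} [AddCommGroup P] [Module R P] [AddCommGroup Y] [Module R Y]
  [AddCommGroup X] [Module R X] [AddCommGroup Z] [Module R Z]

theorem factor_surj (π : P →ₗ[R] Y) (hs : Function.Surjective π) (g : P →ₗ[R] X)
    (h : ∀ p, π p = 0 → g p = 0) : ∃ k : Y →ₗ[R] X, ∀ p, k (π p) = g p := by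
  refine ⟨(Submodule.liftQ (LinearMap.ker π) g fun p hp => h p hp) ∘ₗ
    ((π.quotKerEquivOfSurjective hs).symm : Y →ₗ[R] _), fun p => ?_⟩
  have h1 : (π.quotKerEquivOfSurjective hs).symm (π p) = Submodule.Quotient.mk p := by
    rw [LinearEquiv.symm_apply_eq]
    rfl
  simp [h1]

theorem factor_inj (ι : Y →ₗ[R] P) (hi : Function.Injective ι) (g : X →ₗ[R] P)
    (h : ∀ x, ∃ y, ι y = g x) : ∃ k : X →ₗ[R] Y, ∀ x, ι (k x) = g x := by
  choose k hk using h
  refine ⟨{ toFun := k, map_add' := fun x y => hi ?_, map_smul' := fun c x => hi ?_ }, hk⟩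
  · rw [map_add, hk, hk, hk, map_add]
  · rw [RingHom.id_apply, map_smul, hk, hk, map_smul]

/-- extension of maps along the inclusion of a syzygy -/
theorem Ext1Zero.along [Module.Projective R P] (h : Ext1Zero R X Z) {ι : Y →ₗ[R] P}
    {π : P →ₗ[R] X} (hi : Function.Injective ι) (hs : Function.Surjective π)
    (hex : ∀ p, π p = 0 ↔ ∃ y, ι y = p) (f : Y →ₗ[R] Z) :
    ∃ g : P →ₗ[R] Z, ∀ y, g (ι y) = f y := by
  obtain ⟨k, hk⟩ := factor_inj ι hi (LinearMap.ker π).subtype fun x => (hex x).1 x.2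
  obtain ⟨g, hg⟩ := h P π hs (f ∘ₗ k)
  refine ⟨g, fun y => ?_⟩
  have h1 := hg ⟨ι y, (hex _).2 ⟨y, rfl⟩⟩
  have h2 : k ⟨ι y, (hex _).2 ⟨y, rfl⟩⟩ = y := hi (hk _)
  rw [LinearMap.comp_apply, h2] at h1
  exact h1

/-- one presentation is enough -/
theorem Ext1Zero.of_pres [Module.Projective R P] {ι : Y →ₗ[R] P} {π : P →ₗ[R] X}
    (hs : Function.Surjective π) (hex : ∀ p, π p = 0 ↔ ∃ y, ι y = p)
    (h : ∀ f : Y →ₗ[R] Z, ∃ g : P →ₗ[R] Z, ∀ y, g (ι y) = f y) : Ext1Zero R X Z := by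
  intro P' _ _ _ π' hs' f
  obtain ⟨u, hu⟩ := Module.projective_lifting_property π π' hs
  obtain ⟨v, hv⟩ := Module.projective_lifting_property π' π hs'
  have hu' : ∀ p, π (u p) = π' p := fun p => LinearMap.congr_fun hu p
  have hv' : ∀ p, π' (v p) = π p := fun p => LinearMap.congr_fun hv p
  let c : Y →ₗ[R] LinearMap.ker π' := (v ∘ₗ ι).codRestrict (LinearMap.ker π') fun y => by
    show π' (v (ι y)) = 0
    rw [hv']
    exact (hex _).2 ⟨y, rfl⟩
  let e : P' →ₗ[R] LinearMap.ker π' := (LinearMap.id - v ∘ₗ u).codRestrict (LinearMap.ker π')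
    fun p => by
      show π' (p - v (u p)) = 0
      rw [map_sub, hv', hu', sub_self]
  obtain ⟨G, hG⟩ := h (f ∘ₗ c)
  refine ⟨G ∘ₗ u + f ∘ₗ e, fun x => ?_⟩
  obtain ⟨y, hy⟩ := (hex (u x)).1 (by rw [hu']; exact x.2)
  have h1 : c y + e x = x := Subtype.ext (by
    show v (ι y) + ((x : P') - v (u x)) = x
    rw [hy]
    abel)
  show G (u x) + f (e x) = f x
  rw [← hy, hG, LinearMap.comp_apply, ← map_add, h1]

theorem Ext1Zero.of_projective [Module.Projective R X] : Ext1Zero R X Z := by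
  intro P _ _ _ π hs f
  obtain ⟨s, hσ⟩ := Module.projective_lifting_property π LinearMap.id hs
  have hs' : ∀ x, π (s x) = x := fun x => LinearMap.congr_fun hσ x
  let e : P →ₗ[R] LinearMap.ker π := (LinearMap.id - s ∘ₗ π).codRestrict (LinearMap.ker π)
    fun p => by
      show π (p - s (π p)) = 0
      rw [map_sub, hs', sub_self]
  refine ⟨f ∘ₗ e, fun x => ?_⟩
  have h1 : e x = x := Subtype.ext (by
    show (x : P) - s (π x) = x
    rw [show π (x : P) = 0 from x.2, map_zero, sub_zero])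
  show f (e x) = f x
  rw [h1]

theorem Ext1Zero.retract {Z' : Type} [AddCommGroup Z'] [Module R Z'] (h : Ext1Zero R X Z)
    (i : Z' →ₗ[R] Z) (r : Z →ₗ[R] Z') (hr : ∀ z, r (i z) = z) : Ext1Zero R X Z' := by
  intro P _ _ _ π hs f
  obtain ⟨g, hg⟩ := h P π hs (i ∘ₗ f)
  exact ⟨r ∘ₗ g, fun x => by
    show r (g x) = f x
    rw [hg, LinearMap.comp_apply, hr]⟩

theorem Ext1Zero.pi {α : Type} (h : Ext1Zero R X Z) : Ext1Zero R X (α → Z) := by
  intro P _ _ _ π hs f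
  choose g hg using fun a => h P π hs (LinearMap.proj a ∘ₗ f)
  exact ⟨LinearMap.pi g, fun x => funext fun a => hg a x⟩

theorem Ext1Zero.fgproj {Q : Type} [AddCommGroup Q] [Module R Q] [Module.Finite R Q]
    [Module.Projective R Q] (h : Ext1Zero R X R) : Ext1Zero R X Q := by
  obtain ⟨n, π, hπ⟩ := Module.Finite.exists_fin' R Q
  obtain ⟨s, hσ⟩ := Module.projective_lifting_property π LinearMap.id hπ
  exact (h.pi (α := Fin n)).retract s π fun z => LinearMap.congr_fun hσ z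

theorem Ext1Zero.congr {X' : Type} [AddCommGroup X'] [Module R X'] (h : Ext1Zero R X Z)
    (e : X ≃ₗ[R] X') : Ext1Zero R X' Z := by
  intro P _ _ _ π hs f
  refine h.along (P := P) (ι := (LinearMap.ker π).subtype)
    (π := (e.symm : X' →ₗ[R] X) ∘ₗ π) Subtype.val_injective (e.symm.surjective.comp hs) ?_ f
  intro p
  constructor
  · intro hp
    exact ⟨⟨p, e.symm.injective (by simpa using hp)⟩, rfl⟩
  · rintro ⟨y, rfl⟩
    have : π (y : P) = 0 := y.2
    simp [this]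

/-- the syzygy of a rigid module is rigid -/
theorem rigid_step [Module.Projective R P] {ι : Y →ₗ[R] P} {π : P →ₗ[R] X}
    (hi : Function.Injective ι) (hs : Function.Surjective π)
    (hex : ∀ p, π p = 0 ↔ ∃ y, ι y = p) (hX : Ext1Zero R X X) (hY : Ext1Zero R Y P) :
    Ext1Zero R Y Y := by
  intro P' _ _ _ π' hs' f
  obtain ⟨h, hh⟩ := hY P' π' hs' (ι ∘ₗ f)
  obtain ⟨k, hk⟩ := factor_surj π' hs' (π ∘ₗ h) fun p hp => by
    have h1 := hh ⟨p, hp⟩
    show π (h p) = 0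
    have h2 : h p = ι (f ⟨p, hp⟩) := h1
    rw [h2]
    exact (hex _).2 ⟨_, rfl⟩
  obtain ⟨K', hK⟩ := hX.along hi hs hex k
  obtain ⟨L, hL⟩ := Module.projective_lifting_property π K' hs
  have hL' : ∀ p, π (L p) = K' p := fun p => LinearMap.congr_fun hL p
  obtain ⟨g, hg⟩ := factor_inj ι hi (h - L ∘ₗ ι ∘ₗ π') fun p => (hex _).1 (by
    show π (h p - L (ι (π' p))) = 0
    rw [map_sub, hL', hK, hk]
    exact sub_self _)
  refine ⟨g, fun x => hi ?_⟩
  rw [hg]
  show h x - L (ι (π' x)) = ι (f x)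
  rw [hh, show π' (x : P') = 0 from x.2, map_zero, map_zero, sub_zero]
  rfl

end basic

section stab
variable {P Y X P' Y' X' : Type} [AddCommGroup P] [Module R P] [AddCommGroup Y] [Module R Y]
  [AddCommGroup X] [Module R X] [AddCommGroup P'] [Module R P'] [AddCommGroup Y'] [Module R Y']
  [AddCommGroup X'] [Module R X']

theorem StabIso.of_equiv (e : X ≃ₗ[R] X') : StabIso R X X' :=
  ⟨PUnit, inferInstance, inferInstance, PUnit, inferInstance, inferInstance,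
    ⟨inferInstance, inferInstance⟩, ⟨inferInstance, inferInstance⟩,
    ⟨e.prodCongr (LinearEquiv.refl R PUnit)⟩⟩

/-- modules with isomorphic syzygies -/
theorem equiv_of_syz [Module.Projective R P] [Module.Projective R P'] {ι : Y →ₗ[R] P}
    {π : P →ₗ[R] X} {ι' : Y' →ₗ[R] P'} {π' : P' →ₗ[R] X'}
    (hi : Function.Injective ι) (hs : Function.Surjective π)
    (hex : ∀ p, π p = 0 ↔ ∃ y, ι y = p)
    (hi' : Function.Injective ι') (hs' : Function.Surjective π')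
    (hex' : ∀ p, π' p = 0 ↔ ∃ y, ι' y = p) (e : Y ≃ₗ[R] Y')
    (h : Ext1Zero R X P') (h' : Ext1Zero R X' P) : Nonempty ((X × P') ≃ₗ[R] (X' × P)) := by
  obtain ⟨g, hg⟩ := h.along hi hs hex (ι' ∘ₗ (e : Y →ₗ[R] Y'))
  obtain ⟨g', hg'⟩ := h'.along hi' hs' hex' (ι ∘ₗ (e.symm : Y' →ₗ[R] Y))
  let F : (P × P') →ₗ[R] (X × P') :=
    (π ∘ₗ LinearMap.fst R P P').prod (g ∘ₗ LinearMap.fst R P P' + LinearMap.snd R P P')
  let F' : (P × P') →ₗ[R] (X' × P) :=
    (π' ∘ₗ LinearMap.snd R P P').prod (g' ∘ₗ LinearMap.snd R P P' + LinearMap.fst R P P')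
  have hF : Function.Surjective F := by
    rintro ⟨x, q⟩
    obtain ⟨p, rfl⟩ := hs x
    exact ⟨(p, q - g p), by simp [F]⟩
  have hF' : Function.Surjective F' := by
    rintro ⟨x, q⟩
    obtain ⟨p, rfl⟩ := hs' x
    exact ⟨(q - g' p, p), by simp [F']⟩
  have hFk : ∀ p p', F (p, p') = 0 ↔ π p = 0 ∧ g p + p' = 0 := fun p p' => Prod.ext_iff
  have hFk' : ∀ p p', F' (p, p') = 0 ↔ π' p' = 0 ∧ g' p' + p = 0 := fun p p' => Prod.ext_iff
  have hker : LinearMap.ker F = LinearMap.ker F' := by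
    ext ⟨p, p'⟩
    rw [LinearMap.mem_ker, LinearMap.mem_ker, hFk, hFk']
    constructor
    · rintro ⟨h1, h2⟩
      obtain ⟨y, rfl⟩ := (hex p).1 h1
      have h3 : p' = ι' (-e y) := by
        have h4 : g (ι y) = ι' (e y) := hg y
        rw [h4] at h2
        rw [map_neg]
        exact eq_neg_of_add_eq_zero_right h2
      refine ⟨(hex' _).2 ⟨_, h3.symm⟩, ?_⟩
      rw [h3, hg']
      simp
    · rintro ⟨h1, h2⟩
      obtain ⟨y, rfl⟩ := (hex' p').1 h1
      have h3 : p = ι (-e.symm y) := by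
        have h4 : g' (ι' y) = ι (e.symm y) := hg' y
        rw [h4] at h2
        rw [map_neg]
        exact eq_neg_of_add_eq_zero_right h2
      refine ⟨(hex _).2 ⟨_, h3.symm⟩, ?_⟩
      rw [h3, hg]
      simp
  exact ⟨(F.quotKerEquivOfSurjective hF).symm.trans
    ((Submodule.quotEquivOfEq _ _ hker).trans (F'.quotKerEquivOfSurjective hF'))⟩

theorem StabIso.descend [Module.Projective R P] [Module.Projective R P'] [Module.Finite R P]
    [Module.Finite R P'] {ι : Y →ₗ[R] P}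
    {π : P →ₗ[R] X} {ι' : Y' →ₗ[R] P'} {π' : P' →ₗ[R] X'}
    (hi : Function.Injective ι) (hs : Function.Surjective π)
    (hex : ∀ p, π p = 0 ↔ ∃ y, ι y = p)
    (hi' : Function.Injective ι') (hs' : Function.Surjective π')
    (hex' : ∀ p, π' p = 0 ↔ ∃ y, ι' y = p) (e : StabIso R Y Y')
    (h : Ext1Zero R X R) (h' : Ext1Zero R X' R) : StabIso R X X' := by
  obtain ⟨Q, _, _, Q', _, _, ⟨hQ1, hQ2⟩, ⟨hQ1', hQ2'⟩, ⟨e⟩⟩ := e
  refine ⟨P' × Q', inferInstance, inferInstance, P × Q, inferInstance, inferInstance,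
    ⟨inferInstance, inferInstance⟩, ⟨inferInstance, inferInstance⟩, ?_⟩
  refine equiv_of_syz (Y := Y × Q) (Y' := Y' × Q') (P := P × Q) (P' := P' × Q')
    (ι := ι.prodMap LinearMap.id) (π := π ∘ₗ LinearMap.fst R P Q)
    (ι' := ι'.prodMap LinearMap.id) (π' := π' ∘ₗ LinearMap.fst R P' Q')
    ?_ ?_ ?_ ?_ ?_ ?_ e h.fgproj h'.fgproj
  · rintro ⟨a, b⟩ ⟨c, d⟩ hab
    simp only [LinearMap.prodMap_apply, LinearMap.id_apply, Prod.mk.injEq] at hab
    exact Prod.ext (hi hab.1) hab.2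
  · intro x
    obtain ⟨p, rfl⟩ := hs x
    exact ⟨(p, 0), rfl⟩
  · rintro ⟨p, q⟩
    constructor
    · intro hp
      obtain ⟨y, rfl⟩ := (hex p).1 hp
      exact ⟨(y, q), rfl⟩
    · rintro ⟨⟨y, q'⟩, hy⟩
      have : ι y = p := congrArg Prod.fst hy
      exact (hex p).2 ⟨y, this⟩
  · rintro ⟨a, b⟩ ⟨c, d⟩ hab
    simp only [LinearMap.prodMap_apply, LinearMap.id_apply, Prod.mk.injEq] at hab
    exact Prod.ext (hi' hab.1) hab.2
  · intro x
    obtain ⟨p, rfl⟩ := hs' x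
    exact ⟨(p, 0), rfl⟩
  · rintro ⟨p, q⟩
    constructor
    · intro hp
      obtain ⟨y, rfl⟩ := (hex' p).1 hp
      exact ⟨(y, q), rfl⟩
    · rintro ⟨⟨y, q'⟩, hy⟩
      have : ι' y = p := congrArg Prod.fst hy
      exact (hex' p).2 ⟨y, this⟩

end stab

end Pool.Agent.Lib.P5dcG
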