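import Mathlib
import Pool.Agent.Lib.P5dcG.SyzG
import Pool.Agent.Lib.P5dcG.CntG

/-!
# Growth of projective resolutions (MP_5dc868_al)
-/

namespace Pool.Agent.Lib.P5dcG

open CategoryTheory Abelian Module

section ext
variable {R : Type} [Ring R] {P Y X Z : Type} [AddCommGroup P] [Module R P] [AddCommGroup Y]
  [Module R Y] [AddCommGroup X] [Module R X] [AddCommGroup Z] [Module R Z]

/-- the short exact sequence `0 → Y → P → X → 0` in the category of modules -/
abbrev sc (ι : Y →ₗ[R] P) (π : P →ₗ[R] X) (hex : ∀ p, π p = 0 ↔ ∃ y, ι y = p) :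
    ShortComplex (ModuleCat.{0} R) :=
  ModuleCat.shortComplexOfCompEqZero ι π
    (LinearMap.ext fun a => (hex (ι a)).2 ⟨a, rfl⟩)

theorem sc_exact {ι : Y →ₗ[R] P} {π : P →ₗ[R] X} (hi : Function.Injective ι)
    (hs : Function.Surjective π) (hex : ∀ p, π p = 0 ↔ ∃ y, ι y = p) :
    (sc ι π hex).ShortExact :=
  ModuleCat.shortComplex_shortExact _ (fun x => hex x) hi hs

/-- dimension shift -/
theorem ext_shift [Module.Projective R P] {ι : Y →ₗ[R] P} {π : P →ₗ[R] X}
    (hi : Function.Injective ι) (hs : Function.Surjective π)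
    (hex : ∀ p, π p = 0 ↔ ∃ y, ι y = p) (j : ℕ)
    (h : Subsingleton (Ext (ModuleCat.of R X) (ModuleCat.of R Z) (j + 2))) :
    Subsingleton (Ext (ModuleCat.of R Y) (ModuleCat.of R Z) (j + 1)) := by
  refine subsingleton_of_forall_eq 0 fun x₁ => ?_
  have hS := sc_exact hi hs hex
  have hsub : Subsingleton (Ext (ModuleCat.of R X) (ModuleCat.of R Z) (1 + (j + 1))) := by
    rwa [show 1 + (j + 1) = j + 2 by omega]
  obtain ⟨x₂, hx₂⟩ := Ext.contravariant_sequence_exact₁ hS (ModuleCat.of R Z) x₁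
    (n₁ := 1 + (j + 1)) rfl (@Subsingleton.elim _ hsub _ _)
  have hproj : Projective (sc ι π hex).X₂ :=
    (IsProjective.iff_projective (R := R) P).1 inferInstance
  have h2 : x₂ = 0 := Ext.eq_zero_of_projective x₂
  rw [← hx₂, h2, Ext.comp_zero]

theorem Ext1Zero.of_ext (h : Subsingleton (Ext (ModuleCat.of R X) (ModuleCat.of R Z) 1)) :
    Ext1Zero R X Z := by
  intro P _ _ _ π hπ f
  have hS := LinearMap.shortExact_shortComplexKer hπ
  have hsub : Subsingleton (Ext (ModuleCat.of R X) (ModuleCat.of R Z) (1 + 0)) := h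
  obtain ⟨x₂, hx₂⟩ := Ext.contravariant_sequence_exact₁ hS (ModuleCat.of R Z)
    (Ext.mk₀ (ModuleCat.ofHom f)) (n₁ := 1 + 0) rfl (@Subsingleton.elim _ hsub _ _)
  obtain ⟨g, rfl⟩ := (Ext.mk₀_bijective _ _).2 x₂
  rw [Ext.mk₀_comp_mk₀] at hx₂
  have h3 := (Ext.mk₀_bijective _ _).1 hx₂
  refine ⟨g.hom, fun x => ?_⟩
  have h4 := congrArg (fun φ => φ.hom x) h3
  simpa using h4

/-- `X` is projective if it is a summand of `Y` and maps `Y → X` extend to `P` -/
theorem projective_of_stab [Module.Projective R P] {ι : Y →ₗ[R] P}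
    (h : StabIso R X Y) (hext : ∀ f : Y →ₗ[R] X, ∃ g : P →ₗ[R] X, ∀ y, g (ι y) = f y) :
    Module.Projective R X := by
  obtain ⟨Q, _, _, Q', _, _, _, ⟨_, hQ'⟩, ⟨e⟩⟩ := h
  obtain ⟨g, hg⟩ := hext (LinearMap.fst R X Q ∘ₗ (e.symm : Y × Q' →ₗ[R] X × Q) ∘ₗ
    LinearMap.inl R Y Q')
  refine Module.Projective.of_split (M := P × Q')
    ((ι.prodMap LinearMap.id) ∘ₗ (e : X × Q →ₗ[R] Y × Q') ∘ₗ LinearMap.inl R X Q)
    (LinearMap.coprod g (LinearMap.fst R X Q ∘ₗ (e.symm : Y × Q' →ₗ[R] X × Q) ∘ₗ
      LinearMap.inr R Y Q')) ?_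
  ext x
  have h1 : (e (x, 0)) = ((e (x, 0)).1, (0 : Q')) + ((0 : Y), (e (x, 0)).2) := by simp
  have h2 : e.symm (((e (x, 0)).1, (0 : Q'))) + e.symm ((0 : Y), (e (x, 0)).2) = (x, 0) := by
    rw [← map_add, ← h1, LinearEquiv.symm_apply_apply]
  have h3 := congrArg Prod.fst h2
  show g (ι (e (x, 0)).1) + (e.symm ((0 : Y), (e (x, 0)).2)).1 = x
  rw [hg]
  exact h3

end ext

section res
variable {R : Type} [Ring R]

variable {M : Type} [AddCommGroup M] [Module R M] {P : ℕ → Type}
    [∀ n, AddCommGroup (P n)] [∀ n, Module R (P n)] {ε : P 0 →ₗ[R] M}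
    {d : ∀ n, P (n + 1) →ₗ[R] P n}

theorem Resolution.ex0 (h : Resolution R M P ε d) (p : P 0) :
    ε p = 0 ↔ ∃ y : LinearMap.range (d 0), (LinearMap.range (d 0)).subtype y = p := by
  rw [h.2.2.1]
  constructor
  · rintro ⟨y, rfl⟩
    exact ⟨⟨_, y, rfl⟩, rfl⟩
  · rintro ⟨⟨_, y, rfl⟩, rfl⟩
    exact ⟨y, rfl⟩

theorem Resolution.ex (h : Resolution R M P ε d) (n : ℕ) (p : P (n + 1)) :
    (d n).rangeRestrict p = 0 ↔
      ∃ y : LinearMap.range (d (n + 1)), (LinearMap.range (d (n + 1))).subtype y = p := by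
  have h1 : (d n).rangeRestrict p = 0 ↔ d n p = 0 := by
    rw [← Subtype.coe_inj]
    rfl
  rw [h1, h.2.2.2]
  constructor
  · rintro ⟨y, rfl⟩
    exact ⟨⟨_, y, rfl⟩, rfl⟩
  · rintro ⟨⟨_, y, rfl⟩, rfl⟩
    exact ⟨y, rfl⟩

theorem Resolution.ext {Z : Type} [AddCommGroup Z] [Module R Z] (h : Resolution R M P ε d)
    (n : ℕ) : ∀ j, Subsingleton (Ext (ModuleCat.of R M) (ModuleCat.of R Z) (n + j + 2)) →
      Subsingleton (Ext (ModuleCat.of R (LinearMap.range (d n))) (ModuleCat.of R Z) (j + 1)) := by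
  induction n with
  | zero =>
    intro j hj
    have := (h.1 0).2
    exact ext_shift Subtype.val_injective h.2.1 h.ex0 j (by rwa [zero_add] at hj)
  | succ n ih =>
    intro j hj
    have := (h.1 (n + 1)).2
    refine ext_shift Subtype.val_injective (d n).surjective_rangeRestrict (h.ex n) j ?_
    exact ih (j + 1) (by rwa [show n + (j + 1) + 2 = n + 1 + j + 2 by omega])

theorem Resolution.rigid (h : Resolution R M P ε d) {N : ℕ} (hM : Ext1Zero R M M)
    (hA : ∀ n, n < N → Ext1Zero R (LinearMap.range (d n)) R) (n : ℕ) :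
    n < N → Ext1Zero R (LinearMap.range (d n)) (LinearMap.range (d n)) := by
  induction n with
  | zero =>
    intro hn
    have h1 := h.1 0
    have := h1.1
    have := h1.2
    exact rigid_step Subtype.val_injective h.2.1 h.ex0 hM (hA 0 hn).fgproj
  | succ n ih =>
    intro hn
    have h1 := h.1 (n + 1)
    have := h1.1
    have := h1.2
    exact rigid_step Subtype.val_injective (d n).surjective_rangeRestrict (h.ex n)
      (ih (by omega)) (hA (n + 1) hn).fgproj

theorem cast_stab {X : Type} [AddCommGroup X] [Module R X] {a b : ℕ} (hab : a = b)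
    (h : StabIso R X (LinearMap.range (d a))) : StabIso R X (LinearMap.range (d b)) := by
  subst hab
  exact h

theorem Resolution.descent (h : Resolution R M P ε d) {N : ℕ} (hM : Ext1Zero R M R)
    (hA : ∀ n, n < N → Ext1Zero R (LinearMap.range (d n)) R) (k i : ℕ) :
    i + (k + 1) < N → StabIso R (LinearMap.range (d i)) (LinearMap.range (d (i + (k + 1)))) →
      StabIso R M (LinearMap.range (d k)) := by
  induction i with
  | zero =>
    intro hi hs
    have h1 := h.1 0
    have := h1.1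
    have := h1.2
    have h2 := h.1 (k + 1)
    have := h2.1
    have := h2.2
    have hs' := cast_stab (b := k + 1) (by omega) hs
    exact hs'.descend Subtype.val_injective h.2.1 h.ex0 Subtype.val_injective
      (d k).surjective_rangeRestrict (h.ex k) hM (hA k (by omega))
  | succ i ih =>
    intro hi hs
    refine ih (by omega) ?_
    have h1 := h.1 (i + 1)
    have := h1.1
    have := h1.2
    have h2 := h.1 (i + (k + 1) + 1)
    have := h2.1
    have := h2.2
    have hs' := cast_stab (b := i + (k + 1) + 1) (by omega) hs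
    exact hs'.descend Subtype.val_injective (d i).surjective_rangeRestrict (h.ex i)
      Subtype.val_injective (d (i + (k + 1))).surjective_rangeRestrict (h.ex (i + (k + 1)))
      (hA i (by omega)) (hA (i + (k + 1)) (by omega))

end res

section main
variable {K A : Type} [Field K] [Ring A] [Algebra K A] [FiniteDimensional K A]

variable {M : Type} [AddCommGroup M] [Module A M] {P : ℕ → Type}
    [∀ n, AddCommGroup (P n)] [∀ n, Module A (P n)] [∀ n, Module K (P n)]
    [∀ n, IsScalarTower K A (P n)] {ε : P 0 →ₗ[A] M} {d : ∀ n, P (n + 1) →ₗ[A] P n}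

theorem growth_or_periodic (h : Resolution A M P ε d) (N : ℕ)
    (hA : ∀ i, 1 ≤ i → i ≤ N + 1 → Subsingleton (Ext (ModuleCat.of A M) (ModuleCat.of A A) i))
    (hM : Subsingleton (Ext (ModuleCat.of A M) (ModuleCat.of A M) 1)) :
    Growth K A P N ∨ ∃ k, k + 1 < N ∧ StabIso A M (LinearMap.range (d k)) := by
  by_contra hcon
  obtain ⟨h1, h2⟩ := not_or.1 hcon
  apply h1
  intro D s hs
  have hM1 : Ext1Zero A M M := Ext1Zero.of_ext hM
  have hA0 : Ext1Zero A M A := Ext1Zero.of_ext (hA 1 le_rfl (by omega))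
  have hA1 : ∀ n, n < N → Ext1Zero A (LinearMap.range (d n)) A := fun n hn =>
    Ext1Zero.of_ext (h.ext n 0 (hA (n + 0 + 2) (by omega) (by omega)))
  have hfin : ∀ n, FiniteDimensional K (P n) := fun n => by
    have := (h.1 n).1
    exact Module.Finite.trans A (P n)
  have hsub : ∀ n, ∃ f : LinearMap.range (d n) →ₗ[K] P n, Function.Injective f := fun n =>
    ⟨{ toFun := fun x => x, map_add' := fun _ _ => rfl, map_smul' := fun _ _ => rfl },
      Subtype.val_injective⟩
  refine card_le (K := K) (A := A) (fun n => LinearMap.range (d n)) s D ?_ ?_ ?_ ?_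
  · intro n _
    obtain ⟨f, hf⟩ := hsub n
    exact FiniteDimensional.of_injective f hf
  · intro n hn
    obtain ⟨f, hf⟩ := hsub n
    exact (LinearMap.finrank_le_finrank_of_injective hf).trans (hs n hn).2
  · exact fun n hn => h.rigid hM1 hA1 n (hs n hn).1
  · intro i hi j hj hij ⟨e⟩
    obtain ⟨k, rfl⟩ : ∃ k, j = i + (k + 1) := ⟨j - i - 1, by omega⟩
    have hj' := (hs _ hj).1
    exact h2 ⟨k, by omega, h.descent hA0 hA1 k i hj' (StabIso.of_equiv e)⟩

/-- the case of self-orthogonal modules -/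
theorem growth_of_selfExt (h : Resolution A M P ε d) (N : ℕ)
    (hA : ∀ i, 1 ≤ i → i ≤ N + 1 → Subsingleton (Ext (ModuleCat.of A M) (ModuleCat.of A A) i))
    (hM : ∀ i, 1 ≤ i → i ≤ N → Subsingleton (Ext (ModuleCat.of A M) (ModuleCat.of A M) i)) :
    Module.Projective A M ∨ Growth K A P N := by
  rcases Nat.eq_zero_or_pos N with rfl | hN
  · right
    intro D s hs
    have : s = ∅ := Finset.eq_empty_of_forall_notMem fun n hn => absurd (hs n hn).1 (by omega)
    simp [this]
  rcases growth_or_periodic (K := K) h N hA (hM 1 le_rfl hN) with h1 | ⟨k, hk, hs⟩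
  · exact Or.inr h1
  · left
    have hp := (h.1 k).2
    refine projective_of_stab (P := P k) (ι := (LinearMap.range (d k)).subtype) hs ?_
    cases k with
    | zero =>
      have h1 : Ext1Zero A M M := Ext1Zero.of_ext (hM 1 le_rfl hN)
      exact h1.along Subtype.val_injective h.2.1 h.ex0
    | succ k =>
      have h1 : Ext1Zero A (LinearMap.range (d k)) M :=
        Ext1Zero.of_ext (h.ext k 0 (hM (k + 0 + 2) (by omega) (by omega)))
      exact h1.along Subtype.val_injective (d k).surjective_rangeRestrict (h.ex k)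

/-- the case of injective modules -/
theorem growth_of_injective (h : Resolution A M P ε d) (N : ℕ)
    (hA : ∀ i, 1 ≤ i → i ≤ N + 1 → Subsingleton (Ext (ModuleCat.of A M) (ModuleCat.of A A) i))
    (hM : Module.Injective A M) : Module.Projective A M ∨ Growth K A P N := by
  have hinj := (Module.injective_iff_injective_object A M).1 hM
  have h0 : Subsingleton (Ext (ModuleCat.of A M) (ModuleCat.of A M) 1) :=
    subsingleton_of_forall_eq 0 fun x => Ext.eq_zero_of_injective x
  rcases growth_or_periodic (K := K) h N hA h0 with h1 | ⟨k, hk, hs⟩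
  · exact Or.inr h1
  · left
    have hp := (h.1 k).2
    refine projective_of_stab (P := P k) (ι := (LinearMap.range (d k)).subtype) hs ?_
    intro f
    obtain ⟨g, hg⟩ := hM.out (LinearMap.range (d k)).subtype Subtype.val_injective f
    exact ⟨g, hg⟩

end main

end Pool.Agent.Lib.P5dcG
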