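import Mathlib
import Pool.Agent.Lib.P5dcG.ResG

/-!
# Growth of injective coresolutions (MP_5dc868_al)
-/

namespace Pool.Agent.Lib.P5dcG

open CategoryTheory Abelian Module

section basic
variable {R : Type} [Ring R] {J X Z J' X' Z' : Type} [AddCommGroup J] [Module R J]
  [AddCommGroup X] [Module R X] [AddCommGroup Z] [Module R Z] [AddCommGroup J'] [Module R J']
  [AddCommGroup X'] [Module R X'] [AddCommGroup Z'] [Module R Z']

/-- the cosyzygy of a rigid module is rigid -/
theorem corigid_step [Module.Projective R J] (hJ : Module.Injective R J) {ι : X →ₗ[R] J}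
    {π : J →ₗ[R] Z} (hi : Function.Injective ι) (hs : Function.Surjective π)
    (hex : ∀ p, π p = 0 ↔ ∃ y, ι y = p) (hX : Ext1Zero R X X) : Ext1Zero R Z Z := by
  refine Ext1Zero.of_pres (P := J) (ι := ι) (π := π) hs hex fun f => ?_
  -- a projective presentation of `X`
  let p : (X →₀ R) →ₗ[R] X := Finsupp.linearCombination R id
  have hp : Function.Surjective p := fun x => ⟨Finsupp.single x 1, by simp [p]⟩
  obtain ⟨h, hh⟩ := Module.projective_lifting_property π (f ∘ₗ p) hs
  have hh' : ∀ x, π (h x) = f (p x) := fun x => LinearMap.congr_fun hh x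
  obtain ⟨k, hk⟩ := factor_inj (X := LinearMap.ker p) ι hi
    (h ∘ₗ (LinearMap.ker p).subtype) fun x => (hex _).1 (by
    show π (h x) = 0
    rw [hh', show p (x : X →₀ R) = 0 from x.2, map_zero])
  obtain ⟨K', hK⟩ := hX _ p hp k
  obtain ⟨f', hf'⟩ := factor_surj p hp (h - ι ∘ₗ K') fun x hx => by
    have h1 := hK ⟨x, hx⟩
    have h2 := hk ⟨x, hx⟩
    show h x - ι (K' x) = 0
    have h3 : K' x = k ⟨x, hx⟩ := h1
    rw [h3, h2]
    exact sub_self _
  obtain ⟨F, hF⟩ := hJ.out ι hi f'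
  refine ⟨π ∘ₗ F, fun x => ?_⟩
  obtain ⟨z, rfl⟩ := hp x
  show π (F (ι (p z))) = f (p z)
  rw [hF, hf']
  show π (h z - ι (K' z)) = f (p z)
  rw [map_sub, (hex _).2 ⟨_, rfl⟩, sub_zero, hh']

/-- Schanuel's lemma -/
theorem schanuel [Module.Projective R J] [Module.Projective R J'] {ι : X →ₗ[R] J}
    {π : J →ₗ[R] Z} {ι' : X' →ₗ[R] J'} {π' : J' →ₗ[R] Z'}
    (hi : Function.Injective ι) (hs : Function.Surjective π)
    (hex : ∀ p, π p = 0 ↔ ∃ y, ι y = p)
    (hi' : Function.Injective ι') (hs' : Function.Surjective π')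
    (hex' : ∀ p, π' p = 0 ↔ ∃ y, ι' y = p) (e : Z ≃ₗ[R] Z') :
    Nonempty ((X × J') ≃ₗ[R] (X' × J)) := by
  obtain ⟨u, hu⟩ := Module.projective_lifting_property π' ((e : Z →ₗ[R] Z') ∘ₗ π) hs'
  obtain ⟨v, hv⟩ := Module.projective_lifting_property π ((e.symm : Z' →ₗ[R] Z) ∘ₗ π') hs
  have hu' : ∀ x, π' (u x) = e (π x) := fun x => LinearMap.congr_fun hu x
  have hv' : ∀ x, π (v x) = e.symm (π' x) := fun x => LinearMap.congr_fun hv x
  -- the pullback
  let E : Submodule R (J × J') := LinearMap.ker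
    ((e : Z →ₗ[R] Z') ∘ₗ π ∘ₗ LinearMap.fst R J J' - π' ∘ₗ LinearMap.snd R J J')
  have hE : ∀ x y, (x, y) ∈ E ↔ e (π x) = π' y := fun x y => sub_eq_zero
  have h1 : Nonempty (E ≃ₗ[R] X' × J) := by
    let f : (X' × J) →ₗ[R] E := LinearMap.codRestrict E
      ((LinearMap.snd R X' J).prod (ι' ∘ₗ LinearMap.fst R X' J + u ∘ₗ LinearMap.snd R X' J))
      fun x => by
        refine (hE _ _).2 ?_
        show e (π x.2) = π' (ι' x.1 + u x.2)
        rw [map_add, hu', (hex' _).2 ⟨_, rfl⟩, zero_add]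
    refine ⟨(LinearEquiv.ofBijective f ⟨?_, ?_⟩).symm⟩
    · rintro ⟨a, b⟩ ⟨c, d⟩ h
      have h2 : (b, ι' a + u b) = (d, ι' c + u d) := congrArg Subtype.val h
      have h3 : b = d := congrArg Prod.fst h2
      have h4 : ι' a + u b = ι' c + u d := congrArg Prod.snd h2
      subst h3
      exact Prod.ext (hi' (add_right_cancel h4)) rfl
    · rintro ⟨⟨x, y⟩, hxy⟩
      have h2 := (hE x y).1 hxy
      obtain ⟨a, ha⟩ := (hex' (y - u x)).1 (by rw [map_sub, hu', h2, sub_self])
      refine ⟨(a, x), Subtype.ext (Prod.ext rfl ?_)⟩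
      show ι' a + u x = y
      rw [ha, sub_add_cancel]
  have h2 : Nonempty (E ≃ₗ[R] X × J') := by
    let f : (X × J') →ₗ[R] E := LinearMap.codRestrict E
      ((ι ∘ₗ LinearMap.fst R X J' + v ∘ₗ LinearMap.snd R X J').prod (LinearMap.snd R X J'))
      fun x => by
        refine (hE _ _).2 ?_
        show e (π (ι x.1 + v x.2)) = π' x.2
        rw [map_add, hv', (hex _).2 ⟨_, rfl⟩, zero_add, LinearEquiv.apply_symm_apply]
    refine ⟨(LinearEquiv.ofBijective f ⟨?_, ?_⟩).symm⟩
    · rintro ⟨a, b⟩ ⟨c, d⟩ h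
      have h2 : (ι a + v b, b) = (ι c + v d, d) := congrArg Subtype.val h
      have h3 : b = d := congrArg Prod.snd h2
      have h4 : ι a + v b = ι c + v d := congrArg Prod.fst h2
      subst h3
      exact Prod.ext (hi (add_right_cancel h4)) rfl
    · rintro ⟨⟨x, y⟩, hxy⟩
      have h2 := (hE x y).1 hxy
      obtain ⟨a, ha⟩ := (hex (x - v y)).1 (by
        rw [map_sub, hv', ← h2, LinearEquiv.symm_apply_apply, sub_self])
      refine ⟨(a, y), Subtype.ext (Prod.ext ?_ rfl)⟩
      show ι a + v y = x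
      rw [ha, sub_add_cancel]
  exact ⟨h2.some.symm.trans h1.some⟩

theorem StabIso.codescend [Module.Projective R J] [Module.Projective R J'] [Module.Finite R J]
    [Module.Finite R J'] {ι : X →ₗ[R] J} {π : J →ₗ[R] Z} {ι' : X' →ₗ[R] J'}
    {π' : J' →ₗ[R] Z'} (hi : Function.Injective ι) (hs : Function.Surjective π)
    (hex : ∀ p, π p = 0 ↔ ∃ y, ι y = p)
    (hi' : Function.Injective ι') (hs' : Function.Surjective π')
    (hex' : ∀ p, π' p = 0 ↔ ∃ y, ι' y = p) (e : StabIso R Z Z') : StabIso R X X' := by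
  obtain ⟨Q, _, _, Q', _, _, ⟨hQ1, hQ2⟩, ⟨hQ1', hQ2'⟩, ⟨e⟩⟩ := e
  refine ⟨J' × Q', inferInstance, inferInstance, J × Q, inferInstance, inferInstance,
    ⟨inferInstance, inferInstance⟩, ⟨inferInstance, inferInstance⟩, ?_⟩
  refine schanuel (Z := Z × Q) (Z' := Z' × Q') (J := J × Q) (J' := J' × Q')
    (ι := LinearMap.inl R J Q ∘ₗ ι) (π := π.prodMap LinearMap.id)
    (ι' := LinearMap.inl R J' Q' ∘ₗ ι') (π' := π'.prodMap LinearMap.id)
    ?_ ?_ ?_ ?_ ?_ ?_ e
  · exact LinearMap.inl_injective.comp hi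
  · rintro ⟨z, q⟩
    obtain ⟨j, rfl⟩ := hs z
    exact ⟨(j, q), rfl⟩
  · rintro ⟨p, q⟩
    constructor
    · intro hp
      obtain ⟨y, rfl⟩ := (hex p).1 (congrArg Prod.fst hp)
      have hq : q = 0 := congrArg Prod.snd hp
      subst hq
      exact ⟨y, rfl⟩
    · rintro ⟨y, hy⟩
      have h1 : ι y = p := congrArg Prod.fst hy
      have h2 : 0 = q := congrArg Prod.snd hy
      exact Prod.ext ((hex p).2 ⟨y, h1⟩) h2.symm
  · exact LinearMap.inl_injective.comp hi'
  · rintro ⟨z, q⟩
    obtain ⟨j, rfl⟩ := hs' z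
    exact ⟨(j, q), rfl⟩
  · rintro ⟨p, q⟩
    constructor
    · intro hp
      obtain ⟨y, rfl⟩ := (hex' p).1 (congrArg Prod.fst hp)
      have hq : q = 0 := congrArg Prod.snd hp
      subst hq
      exact ⟨y, rfl⟩
    · rintro ⟨y, hy⟩
      have h1 : ι' y = p := congrArg Prod.fst hy
      have h2 : 0 = q := congrArg Prod.snd hy
      exact Prod.ext ((hex' p).2 ⟨y, h1⟩) h2.symm

/-- a retraction if the quotient is projective -/
theorem retract_of_projective (hZ : Module.Projective R Z) {ι : X →ₗ[R] J} {π : J →ₗ[R] Z}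
    (hi : Function.Injective ι) (hs : Function.Surjective π)
    (hex : ∀ p, π p = 0 ↔ ∃ y, ι y = p) : ∃ r : J →ₗ[R] X, ∀ x, r (ι x) = x := by
  obtain ⟨s, hσ⟩ := Module.projective_lifting_property π LinearMap.id hs
  have hs' : ∀ x, π (s x) = x := fun x => LinearMap.congr_fun hσ x
  obtain ⟨r, hr⟩ := factor_inj ι hi (LinearMap.id - s ∘ₗ π) fun p => (hex _).1 (by
    show π (p - s (π p)) = 0
    rw [map_sub, hs', sub_self])
  refine ⟨r, fun x => hi ?_⟩
  rw [hr]
  show ι x - s (π (ι x)) = ι x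
  rw [(hex _).2 ⟨_, rfl⟩, map_zero, sub_zero]

theorem injective_of_retract (hJ : Module.Injective R J) (ι : X →ₗ[R] J) (r : J →ₗ[R] X)
    (h : ∀ x, r (ι x) = x) : Module.Injective R X := by
  refine ⟨fun U V _ _ _ _ f hf g => ?_⟩
  obtain ⟨G, hG⟩ := hJ.out f hf (ι ∘ₗ g)
  exact ⟨r ∘ₗ G, fun x => by
    show r (G (f x)) = g x
    rw [hG]
    exact h _⟩

end basic

section cores
variable {R : Type} [Ring R]

variable {X : Type} [AddCommGroup X] [Module R X] {J : ℕ → Type}
    [∀ n, AddCommGroup (J n)] [∀ n, Module R (J n)] {ε : X →ₗ[R] J 0}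
    {d : ∀ n, J n →ₗ[R] J (n + 1)}

theorem Coresolution.ex0 (h : Coresolution R X J ε d) (p : J 0) :
    (d 0).rangeRestrict p = 0 ↔ ∃ y, ε y = p := by
  have h1 : (d 0).rangeRestrict p = 0 ↔ d 0 p = 0 := by
    rw [← Subtype.coe_inj]
    rfl
  rw [h1, h.2.1]

theorem Coresolution.ex (h : Coresolution R X J ε d) (n : ℕ) (p : J (n + 1)) :
    (d (n + 1)).rangeRestrict p = 0 ↔
      ∃ y : LinearMap.range (d n), (LinearMap.range (d n)).subtype y = p := by
  have h1 : (d (n + 1)).rangeRestrict p = 0 ↔ d (n + 1) p = 0 := by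
    rw [← Subtype.coe_inj]
    rfl
  rw [h1, h.2.2]
  constructor
  · rintro ⟨y, rfl⟩
    exact ⟨⟨_, y, rfl⟩, rfl⟩
  · rintro ⟨⟨_, y, rfl⟩, rfl⟩
    exact ⟨y, rfl⟩

theorem Coresolution.rigid (h : Coresolution R X J ε d) {N : ℕ}
    (hJ : ∀ n, n < N → ProjInj R (J n)) (hX : Ext1Zero R X X) (n : ℕ) :
    n < N → Ext1Zero R (LinearMap.range (d n)) (LinearMap.range (d n)) := by
  induction n with
  | zero =>
    intro hn
    obtain ⟨_, _, h3⟩ := hJ 0 hn
    exact corigid_step h3 h.1 (d 0).surjective_rangeRestrict h.ex0 hX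
  | succ n ih =>
    intro hn
    obtain ⟨_, _, h3⟩ := hJ (n + 1) hn
    exact corigid_step h3 Subtype.val_injective (d (n + 1)).surjective_rangeRestrict (h.ex n)
      (ih (by omega))

theorem cast_costab {X : Type} [AddCommGroup X] [Module R X] {a b : ℕ} (hab : a = b)
    (h : StabIso R X (LinearMap.range (d a))) : StabIso R X (LinearMap.range (d b)) := by
  subst hab
  exact h

theorem Coresolution.descent (h : Coresolution R X J ε d) {N : ℕ}
    (hJ : ∀ n, n < N → ProjInj R (J n)) (k i : ℕ) :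
    i + (k + 1) < N → StabIso R (LinearMap.range (d i)) (LinearMap.range (d (i + (k + 1)))) →
      StabIso R X (LinearMap.range (d k)) := by
  induction i with
  | zero =>
    intro hi hs
    obtain ⟨_, _, _⟩ := hJ 0 (by omega)
    obtain ⟨_, _, _⟩ := hJ (k + 1) (by omega)
    have hs' := cast_costab (b := k + 1) (by omega) hs
    exact hs'.codescend h.1 (d 0).surjective_rangeRestrict h.ex0 Subtype.val_injective
      (d (k + 1)).surjective_rangeRestrict (h.ex k)
  | succ i ih =>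
    intro hi hs
    refine ih (by omega) ?_
    obtain ⟨_, _, _⟩ := hJ (i + 1) (by omega)
    obtain ⟨_, _, _⟩ := hJ (i + (k + 1) + 1) (by omega)
    have hs' := cast_costab (b := i + (k + 1) + 1) (by omega) hs
    exact hs'.codescend Subtype.val_injective (d (i + 1)).surjective_rangeRestrict (h.ex i)
      Subtype.val_injective (d (i + (k + 1) + 1)).surjective_rangeRestrict (h.ex (i + (k + 1)))

theorem Coresolution.injective (h : Coresolution R X J ε d) {N : ℕ}
    (hJ : ∀ n, n < N → ProjInj R (J n)) (k : ℕ) :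
    k < N → Module.Projective R (LinearMap.range (d k)) → Module.Injective R X := by
  induction k with
  | zero =>
    intro hk hp
    obtain ⟨_, _, h3⟩ := hJ 0 hk
    obtain ⟨r, hr⟩ := retract_of_projective hp h.1 (d 0).surjective_rangeRestrict h.ex0
    exact injective_of_retract h3 ε r hr
  | succ k ih =>
    intro hk hp
    obtain ⟨_, h2, h3⟩ := hJ (k + 1) hk
    obtain ⟨r, hr⟩ := retract_of_projective hp (ι := (LinearMap.range (d k)).subtype)
      Subtype.val_injective (d (k + 1)).surjective_rangeRestrict (h.ex k)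
    refine ih (by omega) ?_
    exact Module.Projective.of_split (LinearMap.range (d k)).subtype r
      (LinearMap.ext fun x => hr x)

end cores

section main
variable {K A : Type} [Field K] [Ring A] [Algebra K A] [FiniteDimensional K A]
variable {X : Type} [AddCommGroup X] [Module A X] {J : ℕ → Type}
    [∀ n, AddCommGroup (J n)] [∀ n, Module A (J n)] [∀ n, Module K (J n)]
    [∀ n, IsScalarTower K A (J n)] {ε : X →ₗ[A] J 0} {d : ∀ n, J n →ₗ[A] J (n + 1)}

theorem cogrowth (h : Coresolution A X J ε d) (N : ℕ) (hJ : ∀ n, n < N → ProjInj A (J n))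
    (hX : Module.Projective A X) : Module.Injective A X ∨ Growth K A J N := by
  by_contra hcon
  obtain ⟨h1, h2⟩ := not_or.1 hcon
  apply h2
  intro D s hs
  have hfin : ∀ n, n < N → FiniteDimensional K (J n) := fun n hn => by
    have := (hJ n hn).1
    exact Module.Finite.trans A (J n)
  have hsur : ∀ n, ∃ f : J n →ₗ[K] LinearMap.range (d n), Function.Surjective f := fun n =>
    ⟨(d n).rangeRestrict.restrictScalars K, (d n).surjective_rangeRestrict⟩
  refine card_le (K := K) (A := A) (fun n => LinearMap.range (d n)) s D ?_ ?_ ?_ ?_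
  · intro n hn
    obtain ⟨f, hf⟩ := hsur n
    have := hfin n (hs n hn).1
    exact Module.Finite.of_surjective f hf
  · intro n hn
    obtain ⟨f, hf⟩ := hsur n
    have := hfin n (hs n hn).1
    exact (f.finrank_le_finrank_of_surjective hf).trans (hs n hn).2
  · exact fun n hn => h.rigid hJ Ext1Zero.of_projective n (hs n hn).1
  · intro i hi j hj hij ⟨e⟩
    obtain ⟨k, rfl⟩ : ∃ k, j = i + (k + 1) := ⟨j - i - 1, by omega⟩
    have hj' := (hs _ hj).1
    have h3 := h.descent hJ k i hj' (StabIso.of_equiv e)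
    refine h1 (h.injective hJ k (by omega) ?_)
    obtain ⟨Q, _, _, Q', _, _, ⟨_, hQ⟩, ⟨_, hQ'⟩, ⟨e'⟩⟩ := h3
    have h4 : Module.Projective A (LinearMap.range (d k) × Q') :=
      Module.Projective.of_equiv e'
    exact Module.Projective.of_split (LinearMap.inl A _ Q') (LinearMap.fst A _ Q')
      (LinearMap.ext fun x => rfl)

end main

end Pool.Agent.Lib.P5dcG
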